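import Pool.Agent.N395.ENBASAcore
import Pool.Agent.Y914.NV.Irr
import Pool.Agent.Y705.NV.Schur
import Pool.Agent.Y63.NV.Cutw
import Pool.Agent.Y930.NV.Cen
import Pool.Agent.Y63.NV.Wblk930

/-!
# From blocks to single elements, with an automorphism: the theorem
-/

set_option autoImplicit false

namespace Pool.Agent.N395.ENBASA

open Pool.Agent.Y63.NV

theorem BASA : Pool.Agent.N20.EN.S_BASA :=
  core Pool.Agent.Y914.NV.irr (Pool.Agent.Y705.NV.schur Pool.Agent.Y914.NV.irr)
    (Pool.Agent.Y63.NV.B930.wblk Pool.Agent.Y930.NV.cvh (cutw Pool.Agent.Y930.NV.inf))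

end Pool.Agent.N395.ENBASA
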