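import Pool.Agent.N20.EN.Stm
import Pool.Agent.Y624.NV.Trn

/-!
# From blocks to single elements, with an automorphism

After `Pool/Agent/Y63/NV/Base48.lean` of helper48 and helper63.
-/

set_option autoImplicit false

open scoped Classical BigOperators

noncomputable section

namespace Pool.Agent.N395.ENBASA

open Pool.Agent.Y63.NV
open Pool.Agent.Y63.KR
open Pool.Agent.N20.EN
open Pool.Agent.Y63.AWC (IsIrreducibleCharacter pSubgroupSetoid)

/-- counting by the values of a map -/
theorem card_fib {X R : Type} [Finite X] (r : X → R) (S : Finset R) (hS : ∀ x, r x ∈ S)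
    (P : R → Prop) : Nat.card {x // P (r x)} =
      ∑ β ∈ S, if P β then Nat.card {x // r x = β} else 0 := by
  have : Fintype X := Fintype.ofFinite X
  rw [Nat.card_eq_fintype_card, Fintype.card_subtype,
    Finset.card_eq_sum_card_fiberwise (f := r) (t := S) (fun x _ => hS x)]
  refine Finset.sum_congr rfl fun β _ => ?_
  by_cases h : P β
  · rw [if_pos h, Nat.card_eq_fintype_card, Fintype.card_subtype]
    congr 1
    ext x
    simp only [Finset.mem_filter, Finset.mem_univ, true_and]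
    constructor
    · exact fun h' => h'.2
    · rintro rfl
      exact ⟨h, rfl⟩
  · rw [if_neg h, Finset.card_eq_zero, Finset.filter_eq_empty_iff]
    rintro x hx rfl
    exact h (Finset.mem_filter.1 hx).2

theorem sum_P {G : Type} [Group G] [Finite G] (p : ℕ) (w : Subgroup G → ℕ)
    [Fintype {Q : Subgroup G // IsPGroup p Q}] :
    (∑ᶠ R : Subgroup G, if IsPGroup p R then w R else 0) =
      ∑ Q : {Q : Subgroup G // IsPGroup p Q}, w Q.1 := by
  have : Fintype (Subgroup G) := Fintype.ofFinite _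
  rw [finsum_eq_sum_of_fintype, ← Finset.sum_filter]
  exact Finset.sum_subtype (p := fun Q : Subgroup G => IsPGroup p Q)
    (Finset.univ.filter fun Q : Subgroup G => IsPGroup p Q) (by simp) w

section

variable {G F : Type} [Group G] [Field F]

/-- the class functions -/
def CF (T : Type) (F : Type) [Group T] [Field F] : Type := {f : T → F // IsClassFun f}

/-- a functional, restricted to the class functions -/
def rs {T : Type} [Group T] (B : (T → F) → F) : CF T F → F := fun f => B f.1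

/-- the central character of a fixed weight is invariant -/
theorem cv_inv [Finite G] (red : integralClosure ℤ ℂ →+* F) (α : MulAut G) (R : Subgroup G)
    (ξ : Subgroup.normalizer (R : Set G) → ℂ) (hirr : IsIrreducibleCharacter ξ)
    (hfix : Pool.Agent.N20.EW.FixW α R ξ) (f : G → F) (hf : IsClassFun f) :
    centralValue red ξ (fun x => f (α x)) = centralValue red ξ (fun x => f x) := by
  obtain ⟨g, hg1, hg2⟩ := hfix
  obtain ⟨β, hβ⟩ : ∃ β : G ≃* G, ∀ x, β x = g * α x * g⁻¹ :=
    ⟨MulEquiv.trans α (MulAut.conj g), fun x => rfl⟩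
  have hR : ∀ x : G, x ∈ R ↔ β x ∈ R := fun x => by
    rw [hβ]
    exact hg1 x
  have hN : ∀ x : G, x ∈ Subgroup.normalizer (R : Set G) ↔
      β x ∈ Subgroup.normalizer (R : Set G) := by
    intro x
    rw [Subgroup.mem_normalizer_iff, Subgroup.mem_normalizer_iff]
    constructor
    · intro h k
      have h1 := h (β.symm k)
      have e1 : β.symm k ∈ R ↔ k ∈ R := by
        rw [hR, β.apply_symm_apply]
      have e2 : x * β.symm k * x⁻¹ ∈ R ↔ β x * k * (β x)⁻¹ ∈ R := by
        rw [hR, map_mul, map_mul, map_inv, β.apply_symm_apply]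
      exact e1.symm.trans (Iff.trans h1 e2)
    · intro h k
      have h1 := h (β k)
      have e2 : x * k * x⁻¹ ∈ R ↔ β x * β k * (β x)⁻¹ ∈ R := by
        rw [hR, map_mul, map_mul, map_inv]
      exact (hR k).trans (Iff.trans h1 e2.symm)
  let e : Subgroup.normalizer (R : Set G) ≃* Subgroup.normalizer (R : Set G) :=
    { toFun := fun x => ⟨β x.1, (hN x.1).1 x.2⟩
      invFun := fun x => ⟨β.symm x.1, (hN _).2 (by rw [β.apply_symm_apply]; exact x.2)⟩
      left_inv := fun x => Subtype.ext (β.symm_apply_apply x.1)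
      right_inv := fun x => Subtype.ext (β.apply_symm_apply x.1)
      map_mul' := fun x y => Subtype.ext (map_mul β x.1 y.1) }
  have he : ∀ x : Subgroup.normalizer (R : Set G), ((e x : Subgroup.normalizer (R : Set G)) : G) =
      g * α x * g⁻¹ := fun x => hβ x.1
  have hf' : IsClassFun (fun x : Subgroup.normalizer (R : Set G) => f x) := fun a x => hf a x
  have h1 := Pool.Agent.Y624.NV.centralValue_comp red e hirr hf'
  have e1 : (fun x : Subgroup.normalizer (R : Set G) => ξ (e x)) = ξ := by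
    funext x
    exact hg2 x (e x) (he x)
  have e2 : (fun x : Subgroup.normalizer (R : Set G) =>
      (fun y : Subgroup.normalizer (R : Set G) => f y) (e x)) =
      (fun x : Subgroup.normalizer (R : Set G) => f (α x)) := by
    funext x
    change f ((e x : Subgroup.normalizer (R : Set G)) : G) = f (α x)
    rw [he x]
    exact hf g (α x)
  rw [e1, e2] at h1
  exact h1

end

theorem core (h0 : S_IRR) (h1 : S_SCHUR) (h2 : S_WBLK) : S_BASA := by
  intro p hp F _ _ _ red hAut G _ _ α z hz hzα c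
  have : Fintype G := Fintype.ofFinite G
  -- the irreducible traces
  let X : Type := {φ : G → F // IsIrrTrace φ ∧ ∀ x : G, φ (α x) = φ x}
  have hX : Finite X := ((h0 F G).1.subset (fun φ h => h.1)).to_subtype
  have hBX : ∀ φ : X, (∃ x, φ.1 x ≠ 0) ∧ ∃ B : (G → F) → F, IsBlock B ∧
      ∀ f : G → F, IsClassFun f → ∀ x, ∑ᶠ g, f g * φ.1 (g * x) = B f * φ.1 x :=
    fun φ => h1 F G φ.1 φ.2.1
  choose hne BX hBX1 hBX2 using hBX
  have hBXα : ∀ φ : X, Pool.Agent.N20.EW.InvA (BX φ) α := by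
    intro φ f hf
    obtain ⟨x, hx⟩ := hne φ
    have hfα : IsClassFun (fun x => f (α x)) := by
      intro g x
      change f (α (g * x * g⁻¹)) = f (α x)
      rw [map_mul, map_mul, map_inv]
      exact hf _ _
    have e1 := hBX2 φ _ hfα x
    have e2 := hBX2 φ f hf (α x)
    rw [φ.2.2 x] at e2
    have e3 : ∑ᶠ g, f (α g) * φ.1 (g * x) = ∑ᶠ g, f g * φ.1 (g * α x) := by
      rw [← finsum_comp_equiv α.toEquiv (f := fun g => f g * φ.1 (g * α x))]
      refine finsum_congr fun g => ?_
      change f (α g) * φ.1 (g * x) = f (α g) * φ.1 (α g * α x)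
      rw [← map_mul, φ.2.2]
    exact mul_right_cancel₀ hx (e1.symm.trans (e3.trans e2))
  -- the weights
  let P : Type := {Q : Subgroup G // IsPGroup p Q}
  have hP : Finite P := inferInstanceAs (Finite {Q : Subgroup G // IsPGroup p Q})
  have hfP : Fintype {Q : Subgroup G // IsPGroup p Q} := Fintype.ofFinite _
  let Y : P → Type := fun Q => {χ : Subgroup.normalizer (Q.1 : Set G) → ℂ //
    IsWt p (Q.1.subgroupOf (Subgroup.normalizer (Q.1 : Set G))) χ ∧
      Pool.Agent.N20.EW.FixW α Q.1 χ}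
  have hY : ∀ Q, Finite (Y Q) := fun Q =>
    ((h0 ℂ (Subgroup.normalizer (Q.1 : Set G))).1.subset (fun χ h => h.1.irr)).to_subtype
  let BY : ∀ Q : P, Y Q → (G → F) → F := fun Q χ f => centralValue red χ.1 (fun x => f x)
  have hBY : ∀ Q χ, IsBlock (BY Q χ) := fun Q χ => h2 p F red G Q.1 χ.1 Q.2 χ.2.1
  have hBYα : ∀ Q χ, Pool.Agent.N20.EW.InvA (BY Q χ) α := fun Q χ f hf =>
    cv_inv red α Q.1 χ.1 χ.2.1.irr χ.2.2 f hf
  have hfX : Fintype X := Fintype.ofFinite X
  have hfY : ∀ Q, Fintype (Y Q) := fun Q => Fintype.ofFinite (Y Q)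
  let rX : X → (CF G F → F) := fun φ => rs (BX φ)
  let rY : ∀ Q, Y Q → (CF G F → F) := fun Q χ => rs (BY Q χ)
  let S : Finset (CF G F → F) := Finset.univ.image rX ∪
    (Finset.univ : Finset {Q : Subgroup G // IsPGroup p Q}).biUnion
      (fun Q => Finset.univ.image (rY Q))
  have hSX : ∀ φ, rX φ ∈ S := fun φ =>
    Finset.mem_union_left _ (Finset.mem_image_of_mem _ (Finset.mem_univ _))
  have hSY : ∀ Q χ, rY Q χ ∈ S := fun Q χ =>
    Finset.mem_union_right _ (Finset.mem_biUnion.2 ⟨Q, Finset.mem_univ _,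
      Finset.mem_image_of_mem _ (Finset.mem_univ _)⟩)
  have hS : ∀ β ∈ S, ∃ B : (G → F) → F, IsBlock B ∧ Pool.Agent.N20.EW.InvA B α ∧ rs B = β := by
    intro β hβ
    rcases Finset.mem_union.1 hβ with h | h
    · obtain ⟨φ, -, rfl⟩ := Finset.mem_image.1 h
      exact ⟨BX φ, hBX1 φ, hBXα φ, rfl⟩
    · obtain ⟨Q, -, h⟩ := Finset.mem_biUnion.1 h
      obtain ⟨χ, -, rfl⟩ := Finset.mem_image.1 h
      exact ⟨BY Q χ, hBY Q χ, hBYα Q χ, rfl⟩
  -- the equality for a block
  have key : ∀ β ∈ S, Nat.card G * Nat.card {φ : X // rX φ = β} =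
      ∑ Q : {Q : Subgroup G // IsPGroup p Q},
        Nat.card (Subgroup.normalizer (Q.1 : Set G)) * Nat.card {χ : Y Q // rY Q χ = β} := by
    intro β hβ
    obtain ⟨B, hB, hBα, rfl⟩ := hS β hβ
    have h3 := hAut G α B hB hBα
    rw [sum_P p (fun R : Subgroup G => Nat.card (Subgroup.normalizer (R : Set G)) *
        Nat.card {ξ : Subgroup.normalizer (R : Set G) → ℂ //
          IsWt p (R.subgroupOf (Subgroup.normalizer (R : Set G))) ξ ∧
          (∀ f : G → F, IsClassFun f → centralValue red ξ (fun x => f x) = B f) ∧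
          Pool.Agent.N20.EW.FixW α R ξ})] at h3
    have e1 : Pool.Agent.N20.EW.fixL B α = Nat.card {φ : X // rX φ = rs B} := by
      unfold Pool.Agent.N20.EW.fixL
      refine Nat.card_congr
        { toFun := fun φ => ⟨⟨φ.1, φ.2.1, φ.2.2.2⟩, ?_⟩
          invFun := fun φ => ⟨φ.1.1, φ.1.2.1, ?_, φ.1.2.2⟩
          left_inv := fun φ => rfl
          right_inv := fun φ => rfl }
      · funext f
        obtain ⟨x, hx⟩ := hne ⟨φ.1, φ.2.1, φ.2.2.2⟩
        have h4 := hBX2 ⟨φ.1, φ.2.1, φ.2.2.2⟩ f.1 f.2 x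
        have h5 := φ.2.2.1 f.1 f.2 x
        exact mul_right_cancel₀ hx (h4.symm.trans h5)
      · intro f hf x
        have h4 := hBX2 φ.1 f hf x
        have h5 : BX φ.1 f = B f := congrFun φ.2 ⟨f, hf⟩
        rw [← h5]
        exact h4
    rw [← e1, h3]
    refine Finset.sum_congr rfl fun Q _ => ?_
    refine congrArg (fun t => Nat.card (Subgroup.normalizer (Q.1 : Set G)) * t) ?_
    exact Nat.card_congr
      { toFun := fun χ => ⟨⟨χ.1, χ.2.1, χ.2.2.2⟩, funext fun f => χ.2.2.1 f.1 f.2⟩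
        invFun := fun χ => ⟨χ.1.1, χ.1.2.1, fun f hf => congrFun χ.2 ⟨f, hf⟩, χ.1.2.2⟩
        left_inv := fun χ => rfl
        right_inv := fun χ => rfl }
  -- the sums
  let zC : CF G F := ⟨z, hz⟩
  have e3 : Nat.card {φ : G → F // IsIrrTrace φ ∧
        (∀ x : G, ∑ᶠ g : G, z g * φ (g * x) = c * φ x) ∧ ∀ x : G, φ (α x) = φ x} =
      Nat.card {φ : X // rX φ zC = c} := by
    refine Nat.card_congr
      { toFun := fun φ => ⟨⟨φ.1, φ.2.1, φ.2.2.2⟩, ?_⟩
        invFun := fun φ => ⟨φ.1.1, φ.1.2.1, ?_, φ.1.2.2⟩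
        left_inv := fun φ => rfl
        right_inv := fun φ => rfl }
    · obtain ⟨x, hx⟩ := hne ⟨φ.1, φ.2.1, φ.2.2.2⟩
      have h4 := hBX2 ⟨φ.1, φ.2.1, φ.2.2.2⟩ zC.1 zC.2 x
      have h5 := φ.2.2.1 x
      exact mul_right_cancel₀ hx (h4.symm.trans h5)
    · intro x
      have h4 := hBX2 φ.1 zC.1 zC.2 x
      have h5 : BX φ.1 zC.1 = c := φ.2
      exact h4.trans (congrArg (fun t => t * φ.1.1 x) h5)
  have e4 : ∀ Q : P, Nat.card {ξ : Subgroup.normalizer (Q.1 : Set G) → ℂ //
          IsWt p (Q.1.subgroupOf (Subgroup.normalizer (Q.1 : Set G))) ξ ∧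
          centralValue red ξ (fun x => z x) = c ∧ Pool.Agent.N20.EW.FixW α Q.1 ξ} =
      Nat.card {χ : Y Q // rY Q χ zC = c} := by
    intro Q
    exact Nat.card_congr
      { toFun := fun χ => ⟨⟨χ.1, χ.2.1, χ.2.2.2⟩, χ.2.2.1⟩
        invFun := fun χ => ⟨χ.1.1, χ.1.2.1, χ.2, χ.1.2.2⟩
        left_inv := fun χ => rfl
        right_inv := fun χ => rfl }
  rw [sum_P p (fun R : Subgroup G => Nat.card (Subgroup.normalizer (R : Set G)) *
        Nat.card {ξ : Subgroup.normalizer (R : Set G) → ℂ //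
          IsWt p (R.subgroupOf (Subgroup.normalizer (R : Set G))) ξ ∧
          centralValue red ξ (fun x => z x) = c ∧ Pool.Agent.N20.EW.FixW α R ξ}), e3,
    card_fib rX S hSX (fun β => β zC = c), Finset.mul_sum]
  have e6 : ∀ Q : {Q : Subgroup G // IsPGroup p Q},
      Nat.card (Subgroup.normalizer (Q.1 : Set G)) *
        Nat.card {ξ : Subgroup.normalizer (Q.1 : Set G) → ℂ //
          IsWt p (Q.1.subgroupOf (Subgroup.normalizer (Q.1 : Set G))) ξ ∧
          centralValue red ξ (fun x => z x) = c ∧ Pool.Agent.N20.EW.FixW α Q.1 ξ} =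
      ∑ β ∈ S, Nat.card (Subgroup.normalizer (Q.1 : Set G)) *
        (if β zC = c then Nat.card {χ : Y Q // rY Q χ = β} else 0) := by
    intro Q
    rw [e4 Q, ← Finset.mul_sum]
    exact congrArg (fun t => Nat.card (Subgroup.normalizer (Q.1 : Set G)) * t)
      (card_fib (rY Q) S (hSY Q) (fun β => β zC = c))
  rw [Finset.sum_congr rfl fun Q _ => e6 Q, Finset.sum_comm]
  refine Finset.sum_congr rfl fun β hβ => ?_
  by_cases h : β zC = c
  · simp only [if_pos h]
    exact key β hβ
  · simp only [if_neg h, mul_zero]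
    rw [Finset.sum_const_zero]

end Pool.Agent.N395.ENBASA
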