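import Mathlib
import Pool.Agent.N395.Gew

/-!
The generalized quadrangle of order (9,3) on two classes of hyperovals: proofs.
-/

set_option autoImplicit false

namespace Pool.Agent.N395.Gew

open Hemi

theorem allB_iff (f : Nat → Bool) (n : Nat) : allB f n = true ↔ ∀ i < n, f i = true := by
  induction n with
  | zero => simp [allB]
  | succ n ih =>
    rw [allB, Bool.and_eq_true, ih]
    constructor
    · rintro ⟨h1, h2⟩ i hi
      rcases Nat.lt_succ_iff_lt_or_eq.1 hi with h | h
      · exact h2 i h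
      · rw [h]; exact h1
    · intro h
      exact ⟨h n (Nat.lt_succ_self n), fun i hi => h i (Nat.lt_succ_of_lt hi)⟩

theorem cnt_eq (f : Nat → Bool) (n : Nat) :
    cnt f n = ((Finset.range n).filter (fun i => f i = true)).card := by
  induction n with
  | zero => simp [cnt]
  | succ n ih =>
    rw [cnt, Finset.range_add_one, Finset.filter_insert]
    split
    · rw [Finset.card_insert_of_notMem, ih]
      simp
    · exact ih

theorem card_fin (f : Nat → Bool) (n : Nat) (Q : Fin n → Prop)
    (hQ : ∀ i : Fin n, Q i ↔ f i = true) : Nat.card {i : Fin n // Q i} = cnt f n := by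
  classical
  rw [cnt_eq, Nat.card_eq_fintype_card, Fintype.card_subtype]
  rw [← Finset.card_map Fin.valEmbedding]
  congr 1
  ext k
  simp only [Finset.mem_map, Finset.mem_filter, Finset.mem_univ, true_and, Fin.valEmbedding_apply,
    Finset.mem_range]
  constructor
  · rintro ⟨i, hi, rfl⟩
    exact ⟨i.2, (hQ i).1 hi⟩
  · rintro ⟨h1, h2⟩
    exact ⟨⟨k, h1⟩, (hQ _).2 h2, rfl⟩

/-- incidence of the quadrangle -/
def I (p : Fin 280) (l : Fin 112) : Prop := (mask l).testBit p = true

theorem bit_lt {l q : Nat} (h : (mask l).testBit q = true) : q < 280 := by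
  unfold mask at h
  rw [Nat.testBit_mod_two_pow, Bool.and_eq_true] at h
  simpa using h.1

theorem nb_iff (p n q : Nat) : (nb p n).testBit q = true ↔
    ∃ m < n, (mask m).testBit p = true ∧ (mask m).testBit q = true := by
  induction n with
  | zero => simp [nb]
  | succ n ih =>
    rw [nb]
    split
    · rename_i h
      rw [Nat.testBit_lor, Bool.or_eq_true, ih]
      constructor
      · rintro (h1 | ⟨m, h1, h2, h3⟩)
        · exact ⟨n, Nat.lt_succ_self n, h, h1⟩
        · exact ⟨m, Nat.lt_succ_of_lt h1, h2, h3⟩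
      · rintro ⟨m, h1, h2, h3⟩
        rcases Nat.lt_succ_iff_lt_or_eq.1 h1 with h4 | h4
        · exact Or.inr ⟨m, h4, h2, h3⟩
        · subst h4; exact Or.inl h3
    · rename_i h
      rw [ih]
      constructor
      · rintro ⟨m, h1, h2, h3⟩
        exact ⟨m, Nat.lt_succ_of_lt h1, h2, h3⟩
      · rintro ⟨m, h1, h2, h3⟩
        rcases Nat.lt_succ_iff_lt_or_eq.1 h1 with h4 | h4
        · exact ⟨m, h4, h2, h3⟩
        · subst h4; exact absurd h2 h

theorem land_eq_zero_iff (l m : Nat) : mask l &&& mask m = 0 ↔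
    ¬ ∃ q < 280, (mask l).testBit q = true ∧ (mask m).testBit q = true := by
  constructor
  · rintro h ⟨q, _, h1, h2⟩
    have : (mask l &&& mask m).testBit q = true := by
      rw [Nat.testBit_land, h1, h2]; rfl
    rw [h] at this
    simp at this
  · intro h
    apply Nat.eq_of_testBit_eq
    intro q
    rw [Nat.zero_testBit]
    by_contra hc
    rw [Bool.not_eq_false, Nat.testBit_land, Bool.and_eq_true] at hc
    exact h ⟨q, bit_lt hc.1, hc.1, hc.2⟩

theorem atMostOne_spec {x a b : Nat} (h : atMostOne x = true) (ha : x.testBit a = true)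
    (hb : x.testBit b = true) : a = b := by
  unfold atMostOne at h
  rw [Bool.or_eq_true] at h
  rcases h with h | h
  · rw [beq_iff_eq] at h
    subst h
    simp at ha
  · rw [beq_iff_eq] at h
    rw [h, Nat.testBit_two_pow] at ha hb
    simp only [decide_eq_true_eq] at ha hb
    omega

theorem exactlyOne_spec {x : Nat} (h : exactlyOne x = true) :
    ∃ a, x.testBit a = true ∧ ∀ b, x.testBit b = true → b = a := by
  unfold exactlyOne at h
  rw [beq_iff_eq] at h
  refine ⟨Nat.log2 x, ?_, ?_⟩
  · rw [h, Nat.testBit_two_pow, ← h]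
    simp
  · intro b hb
    rw [h, Nat.testBit_two_pow] at hb
    simp only [decide_eq_true_eq] at hb
    omega

theorem isGQ : IsGQ I (3 ^ 2) 3 where
  points_on_line := by
    intro l
    have h1 : Nat.card {p // I p l} = cnt (fun p => (mask l).testBit p) 280 :=
      card_fin (fun p => (mask l).testBit p) 280 (fun p => I p l) (fun p => Iff.rfl)
    have := (allB_iff _ _).1 c1 l l.2
    rw [h1]
    simpa using this
  lines_on_point := by
    intro p
    have h1 : Nat.card {l // I p l} = cnt (fun l => (mask l).testBit p) 112 :=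
      card_fin (fun l => (mask l).testBit p) 112 (fun l => I p l) (fun l => Iff.rfl)
    have := (allB_iff _ _).1 c2 p p.2
    rw [h1]
    simpa using this
  unique_line := by
    intro p q hpq l m h1 h2 h3 h4
    by_contra hlm
    have h := (allB_iff _ _).1 ((allB_iff _ _).1 c3 l l.2) m m.2
    rw [Bool.or_eq_true, beq_iff_eq] at h
    rcases h with h | h
    · exact hlm (Fin.ext h)
    · apply hpq
      apply Fin.ext
      apply atMostOne_spec h
      · rw [Nat.testBit_land, h1, h3]; rfl
      · rw [Nat.testBit_land, h2, h4]; rfl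
  projection := by
    intro p l hpl
    have h := (allB_iff _ _).1 ((allB_iff _ _).1 c4 p p.2) l l.2
    rw [Bool.or_eq_true] at h
    rcases h with h | h
    · exact absurd h hpl
    · obtain ⟨a, ha, hu⟩ := exactlyOne_spec h
      rw [Nat.testBit_land, Bool.and_eq_true, nb_iff] at ha
      obtain ⟨ha1, m, hm, ha2, ha3⟩ := ha
      refine ⟨⟨a, bit_lt ha1⟩, ⟨ha1, ⟨m, hm⟩, ha2, ha3⟩, ?_⟩
      rintro q ⟨hq1, n, hq2, hq3⟩
      apply Fin.ext
      apply hu
      rw [Nat.testBit_land, Bool.and_eq_true, nb_iff]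
      exact ⟨hq1, n, n.2, hq2, hq3⟩

/-- the hemisystem: the first class of hyperovals -/
def H : Set (Fin 112) := {l | (l : ℕ) < 56}

theorem isHemi : IsHemisystem I 3 H := by
  intro p
  have h := (allB_iff _ _).1 c5 p p.2
  rw [beq_iff_eq] at h
  have h2 : Nat.card {l : Fin 112 // l ∈ H ∧ I p l} =
      cnt (fun l => decide (l < 56) && (mask l).testBit p) 112 := by
    apply card_fin
    intro l
    simp [H, I]
  rw [h2, cnt_eq]
  rw [cnt_eq] at h
  have h3 : (Finset.range 112).filter (fun i => (decide (i < 56) && (mask i).testBit p) = true)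
      = (Finset.range 56).filter (fun i => (mask i).testBit p = true) := by
    ext k
    simp only [Finset.mem_filter, Finset.mem_range, Bool.and_eq_true, decide_eq_true_eq]
    constructor
    · rintro ⟨_, h1, h2⟩
      exact ⟨h1, h2⟩
    · rintro ⟨h1, h2⟩
      exact ⟨by omega, h1, h2⟩
  rw [h3]
  exact h

theorem perm_lt {l : Nat} (h : l < 56) : perm l < 56 := by
  have := (allB_iff _ _).1 c6 l h
  rw [Bool.and_eq_true] at this
  have h1 := this.1
  rw [Nat.blt_eq] at h1
  exact h1

theorem perm_perm {l : Nat} (h : l < 56) : perm (perm l) = l := by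
  have := (allB_iff _ _).1 c6 l h
  rw [Bool.and_eq_true, beq_iff_eq] at this
  exact this.2

/-- the permutation of the hemisystem -/
def gequiv : H ≃ H where
  toFun l := ⟨⟨perm l.1, lt_trans (perm_lt l.2) (by norm_num)⟩, perm_lt l.2⟩
  invFun l := ⟨⟨perm l.1, lt_trans (perm_lt l.2) (by norm_num)⟩, perm_lt l.2⟩
  left_inv l := by
    apply Subtype.ext; apply Fin.ext
    exact perm_perm l.2
  right_inv l := by
    apply Subtype.ext; apply Fin.ext
    exact perm_perm l.2

theorem meet_iff (l m : Fin 112) : (∃ p, I p l ∧ I p m) ↔ mask l &&& mask m ≠ 0 := by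
  rw [Ne, land_eq_zero_iff, not_not]
  constructor
  · rintro ⟨p, h1, h2⟩
    exact ⟨p, p.2, h1, h2⟩
  · rintro ⟨q, hq, h1, h2⟩
    exact ⟨⟨q, hq⟩, h1, h2⟩

theorem beq_zero_iff {x y : Nat} (h : ((x == 0) == (y == 0)) = true) : x = 0 ↔ y = 0 := by
  rw [beq_iff_eq] at h
  rw [← beq_iff_eq (a := x), ← beq_iff_eq (a := y), h]

/-- the automorphism of the graph -/
def gaut : hemiGraph I H ≃g hemiGraph I H where
  toEquiv := gequiv
  map_rel_iff' := by
    intro l m
    have h := beq_zero_iff ((allB_iff _ _).1 ((allB_iff _ _).1 c7 l.1 l.2) m.1 m.2)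
    change (gequiv l ≠ gequiv m ∧ ∃ p, I p (gequiv l).1 ∧ I p (gequiv m).1) ↔
      (l ≠ m ∧ ∃ p, I p l.1 ∧ I p m.1)
    rw [gequiv.injective.ne_iff, meet_iff, meet_iff]
    exact and_congr_right fun _ => (not_congr h).symm

theorem not_induced : ¬ ∃ (σ : Equiv.Perm (Fin 280)) (τ : Equiv.Perm (Fin 112)),
    (∀ p l, I (σ p) (τ l) ↔ I p l) ∧ τ '' H = H ∧ ∀ l : H, τ l.1 = (gaut l).1 := by
  rintro ⟨σ, τ, hI, hH, hτ⟩
  let m₀ : Fin 112 := ⟨56, by norm_num⟩
  have hm : (τ m₀ : ℕ) ≥ 56 := by
    by_contra hc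
    have h1 : τ m₀ ∈ τ '' H := by
      rw [hH]
      exact lt_of_not_ge hc
    obtain ⟨l, hl, he⟩ := h1
    have : l = m₀ := τ.injective he
    rw [this] at hl
    exact absurd hl (by change ¬ (56 < 56); norm_num)
  obtain ⟨k, hk⟩ : ∃ k, (τ m₀ : ℕ) = 56 + k := ⟨(τ m₀ : ℕ) - 56, by omega⟩
  have hk56 : k < 56 := by have := (τ m₀).2; omega
  have h := (allB_iff _ _).1 c8 k hk56
  rw [Bool.not_eq_true', ← Bool.not_eq_true, allB_iff] at h
  apply h
  intro l hl
  have key : (mask l &&& mask 56 = 0) ↔ (mask (perm l) &&& mask (56 + k) = 0) := by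
    have e1 := meet_iff ⟨l, by omega⟩ m₀
    have e2 := meet_iff (τ ⟨l, by omega⟩) (τ m₀)
    have e3 : (∃ p, I p ⟨l, by omega⟩ ∧ I p m₀) ↔
        (∃ p, I p (τ ⟨l, by omega⟩) ∧ I p (τ m₀)) := by
      constructor
      · rintro ⟨p, h1, h2⟩
        exact ⟨σ p, (hI _ _).2 h1, (hI _ _).2 h2⟩
      · rintro ⟨p, h1, h2⟩
        refine ⟨σ.symm p, ?_, ?_⟩
        · rw [← hI, Equiv.apply_symm_apply]; exact h1
        · rw [← hI, Equiv.apply_symm_apply]; exact h2
    have e4 : ((τ ⟨l, by omega⟩ : Fin 112) : ℕ) = perm l := by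
      have := hτ ⟨⟨l, by omega⟩, hl⟩
      rw [this]
      rfl
    rw [e1, e2, e4, hk] at e3
    exact not_iff_not.1 e3
  rw [beq_iff_eq]
  apply Bool.eq_iff_iff.2
  rw [beq_iff_eq, beq_iff_eq]
  exact key

end Pool.Agent.N395.Gew
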