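import Mathlib

/-!
Generalized quadrangles, hemisystems and their graphs.
-/

set_option autoImplicit false

namespace Pool.Agent.N395.Hemi

/-- `I` is the incidence relation of a generalized quadrangle of order `(s, t)`: every line carries
exactly `s + 1` points, every point is on exactly `t + 1` lines, two distinct points are on at most
one common line, and for every point `p` not on the line `l` there is exactly one point of `l` which
is collinear with `p`. -/
structure IsGQ {P L : Type} (I : P → L → Prop) (s t : ℕ) : Prop where
  points_on_line : ∀ l, Nat.card {p // I p l} = s + 1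
  lines_on_point : ∀ p, Nat.card {l // I p l} = t + 1
  unique_line : ∀ p q, p ≠ q → ∀ l m, I p l → I q l → I p m → I q m → l = m
  projection : ∀ p l, ¬ I p l → ∃! q, I q l ∧ ∃ m, I p m ∧ I q m

/-- `H` is a hemisystem of a quadrangle whose points are on `s + 1` lines (`s` odd): every point is
on exactly `(s + 1) / 2` lines of `H`. -/
def IsHemisystem {P L : Type} (I : P → L → Prop) (s : ℕ) (H : Set L) : Prop :=
  ∀ p, Nat.card {l // l ∈ H ∧ I p l} = (s + 1) / 2

/-- the graph with vertex set `H`, two distinct lines of `H` being adjacent when they meet -/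
def hemiGraph {P L : Type} (I : P → L → Prop) (H : Set L) : SimpleGraph H where
  Adj l m := l ≠ m ∧ ∃ p, I p l ∧ I p m
  symm := ⟨fun l m h => ⟨h.1.symm, h.2.imp fun _ hp => ⟨hp.2, hp.1⟩⟩⟩
  loopless := ⟨fun l h => h.1 rfl⟩

end Pool.Agent.N395.Hemi
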