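import Mathlib

/-!
The Moebius-Kantor configuration (eight points and eight lines) in a Desarguesian plane.
-/

set_option autoImplicit false

open Module

namespace Pool.Agent.N395.MK

variable {F : Type*} [Field F]

abbrev V (F : Type*) : Type _ := Fin 3 → F

/-- point `i` is on line `j` of the Moebius-Kantor configuration -/
def Inc (i j : Fin 8) : Prop := i = j ∨ i = j + 1 ∨ i = j + 3

instance : DecidableRel Inc := fun i j => by unfold Inc; infer_instance

lemma two_in_line {L : Submodule F (V F)} (hL : finrank F L = 2) {u w : V F} (hu : u ∈ L)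
    (hw : w ∈ L) (hu0 : u ≠ 0) (hw0 : w ∉ Submodule.span F {u}) {x : V F} (hx : x ∈ L) :
    ∃ s t : F, x = s • u + t • w := by
  have hli : LinearIndependent F ![u, w] := by
    rw [LinearIndependent.pair_iff' hu0]
    intro a ha
    exact hw0 (Submodule.mem_span_singleton.2 ⟨a, ha⟩)
  have hle : Submodule.span F (Set.range ![u, w]) ≤ L := by
    rw [Submodule.span_le]
    rintro _ ⟨i, rfl⟩
    fin_cases i
    · simpa using hu
    · simpa using hw
  have hfr : finrank F (Submodule.span F (Set.range ![u, w])) = 2 := by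
    rw [finrank_span_eq_card hli]; simp
  have heq : Submodule.span F (Set.range ![u, w]) = L :=
    Submodule.eq_of_le_of_finrank_eq hle (by rw [hfr, hL])
  rw [← heq] at hx
  have : Set.range ![u, w] = {u, w} := by
    ext y
    simp [eq_comm, or_comm]
  rw [this, Submodule.mem_span_pair] at hx
  obtain ⟨s, t, h⟩ := hx
  exact ⟨s, t, h.symm⟩

/-- An injective realization of the Moebius-Kantor configuration gives a root of `x² - x + 1`. -/
theorem root_of_realization (P : Fin 8 → Submodule F (V F)) (L : Fin 8 → Submodule F (V F))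
    (hP : ∀ i, finrank F (P i) = 1) (hL : ∀ j, finrank F (L j) = 2)
    (hPi : Function.Injective P) (hLi : Function.Injective L)
    (hinc : ∀ i j, Inc i j → P i ≤ L j) : ∃ b : F, b ^ 2 - b + 1 = 0 := by
  -- choose vectors
  have hv : ∀ i, ∃ v : V F, v ≠ 0 ∧ P i = Submodule.span F {v} := by
    intro i
    obtain ⟨v, hv0, hv⟩ := finrank_eq_one_iff'.1 (hP i)
    refine ⟨v, ?_, ?_⟩
    · intro h
      exact hv0 (Subtype.ext h)
    · apply le_antisymm
      · intro x hx
        obtain ⟨c, hc⟩ := hv ⟨x, hx⟩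
        rw [Submodule.mem_span_singleton]
        exact ⟨c, congrArg Subtype.val hc⟩
      · rw [Submodule.span_singleton_le_iff_mem]
        exact v.2
  choose v hv0 hvP using hv
  have mem : ∀ i j, Inc i j → v i ∈ L j := by
    intro i j h
    apply hinc i j h
    rw [hvP i]
    exact Submodule.mem_span_singleton_self _
  have ne_span : ∀ i k, i ≠ k → v k ∉ Submodule.span F {v i} := by
    intro i k hik hmem
    apply hik
    apply hPi
    have h1 : P k ≤ P i := by
      rw [hvP k, hvP i, Submodule.span_singleton_le_iff_mem]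
      exact hmem
    exact (Submodule.eq_of_le_of_finrank_eq h1 (by rw [hP, hP])).symm
  -- two different lines have at most one common point
  have uniq : ∀ i k j m, i ≠ k → v i ∈ L j → v k ∈ L j → v i ∈ L m → v k ∈ L m → j = m := by
    intro i k j m hik h1 h2 h3 h4
    apply hLi
    have key : ∀ j m, v i ∈ L j → v k ∈ L j → v i ∈ L m → v k ∈ L m → L j ≤ L m := by
      intro j m h1 h2 h3 h4 x hx
      obtain ⟨s, t, rfl⟩ := two_in_line (hL j) h1 h2 (hv0 i) (ne_span i k hik) hx
      exact (L m).add_mem ((L m).smul_mem _ h3) ((L m).smul_mem _ h4)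
    exact le_antisymm (key j m h1 h2 h3 h4) (key m j h3 h4 h1 h2)
  have comb : ∀ i k l j, i ≠ k → Inc i j → Inc k j → Inc l j →
      ∃ s t : F, v l = s • v i + t • v k := by
    intro i k l j hik h1 h2 h3
    exact two_in_line (hL j) (mem i j h1) (mem k j h2) (hv0 i) (ne_span i k hik) (mem l j h3)
  -- the vectors 0, 1, 2 are a basis
  have nov2 : ∀ s t : F, v 2 ≠ s • v 0 + t • v 1 := by
    intro s t h
    have h1 : v 2 ∈ L 0 := by
      rw [h]
      exact (L 0).add_mem ((L 0).smul_mem _ (mem 0 0 (by decide)))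
        ((L 0).smul_mem _ (mem 1 0 (by decide)))
    exact absurd (uniq 0 2 0 7 (by decide) (mem 0 0 (by decide)) h1 (mem 0 7 (by decide))
      (mem 2 7 (by decide))) (by decide)
  have nov1 : ∀ s : F, v 1 ≠ s • v 0 := by
    intro s h
    exact ne_span 0 1 (by decide) (Submodule.mem_span_singleton.2 ⟨s, h.symm⟩)
  have ind : ∀ a b c : F, a • v 0 + b • v 1 + c • v 2 = 0 → a = 0 ∧ b = 0 ∧ c = 0 := by
    intro a b c h
    have hc : c = 0 := by
      by_contra hc
      apply nov2 (-(c⁻¹ * a)) (-(c⁻¹ * b))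
      have : c • v 2 = -(a • v 0 + b • v 1) := by
        rw [eq_neg_iff_add_eq_zero, ← h]; abel
      calc v 2 = c⁻¹ • (c • v 2) := by rw [smul_smul, inv_mul_cancel₀ hc, one_smul]
        _ = _ := by rw [this, smul_neg, smul_add, smul_smul, smul_smul, neg_smul, neg_smul]; abel
    subst hc
    rw [zero_smul, add_zero] at h
    have hb : b = 0 := by
      by_contra hb
      apply nov1 (-(b⁻¹ * a))
      have : b • v 1 = -(a • v 0) := by
        rw [eq_neg_iff_add_eq_zero, ← h]; abel
      calc v 1 = b⁻¹ • (b • v 1) := by rw [smul_smul, inv_mul_cancel₀ hb, one_smul]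
        _ = _ := by rw [this, smul_neg, smul_smul, neg_smul]
    subst hb
    rw [zero_smul, add_zero, smul_eq_zero] at h
    exact ⟨h.resolve_right (hv0 0), rfl, rfl⟩
  have hli : LinearIndependent F ![v 0, v 1, v 2] := by
    rw [Fintype.linearIndependent_iff]
    intro g hg
    rw [Fin.sum_univ_three] at hg
    obtain ⟨h0, h1, h2⟩ := ind (g 0) (g 1) (g 2) (by simpa using hg)
    intro i
    fin_cases i
    · exact h0
    · exact h1
    · exact h2
  have span_top := hli.span_eq_top_of_card_eq_finrank' (by simp)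
  have coord : ∀ x : V F, ∃ a b c : F, x = a • v 0 + b • v 1 + c • v 2 := by
    intro x
    have hx : x ∈ Submodule.span F (Set.range ![v 0, v 1, v 2]) := by rw [span_top]; trivial
    rw [Submodule.mem_span_range_iff_exists_fun] at hx
    obtain ⟨c, hc⟩ := hx
    rw [Fin.sum_univ_three] at hc
    exact ⟨c 0, c 1, c 2, by rw [← hc]; simp⟩
  have uni : ∀ a b c a' b' c' : F, a • v 0 + b • v 1 + c • v 2 = a' • v 0 + b' • v 1 + c' • v 2 →
      a = a' ∧ b = b' ∧ c = c' := by
    intro a b c a' b' c' h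
    have := ind (a - a') (b - b') (c - c') (by
      rw [sub_smul, sub_smul, sub_smul]
      rw [← sub_eq_zero] at h
      rw [← h]; abel)
    exact ⟨sub_eq_zero.1 this.1, sub_eq_zero.1 this.2.1, sub_eq_zero.1 this.2.2⟩
  obtain ⟨x5, y5, z5, e5⟩ := coord (v 5)
  have hx5 : x5 ≠ 0 := by
    rintro rfl
    have h1 : v 5 ∈ L 1 := by
      rw [e5, zero_smul, zero_add]
      exact (L 1).add_mem ((L 1).smul_mem _ (mem 1 1 (by decide)))
        ((L 1).smul_mem _ (mem 2 1 (by decide)))
    exact absurd (uniq 2 5 1 2 (by decide) (mem 2 1 (by decide)) h1 (mem 2 2 (by decide))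
      (mem 5 2 (by decide))) (by decide)
  have hy5 : y5 ≠ 0 := by
    rintro rfl
    have h1 : v 5 ∈ L 7 := by
      rw [e5, zero_smul, add_zero]
      exact (L 7).add_mem ((L 7).smul_mem _ (mem 0 7 (by decide)))
        ((L 7).smul_mem _ (mem 2 7 (by decide)))
    exact absurd (uniq 2 5 7 2 (by decide) (mem 2 7 (by decide)) h1 (mem 2 2 (by decide))
      (mem 5 2 (by decide))) (by decide)
  have hz5 : z5 ≠ 0 := by
    rintro rfl
    have h1 : v 5 ∈ L 0 := by
      rw [e5, zero_smul, add_zero]
      exact (L 0).add_mem ((L 0).smul_mem _ (mem 0 0 (by decide)))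
        ((L 0).smul_mem _ (mem 1 0 (by decide)))
    exact absurd (uniq 0 5 0 5 (by decide) (mem 0 0 (by decide)) h1 (mem 0 5 (by decide))
      (mem 5 5 (by decide))) (by decide)
  obtain ⟨p1, p2, e3⟩ := comb 0 1 3 0 (by decide) (by decide) (by decide) (by decide)
  obtain ⟨q1, q2, e4⟩ := comb 1 2 4 1 (by decide) (by decide) (by decide) (by decide)
  obtain ⟨r1, r2, e7⟩ := comb 0 2 7 7 (by decide) (by decide) (by decide) (by decide)
  obtain ⟨s, t, e3'⟩ := comb 2 5 3 2 (by decide) (by decide) (by decide) (by decide)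
  obtain ⟨s', t', e6⟩ := comb 5 0 6 5 (by decide) (by decide) (by decide) (by decide)
  obtain ⟨α, β, e7'⟩ := comb 6 1 7 6 (by decide) (by decide) (by decide) (by decide)
  obtain ⟨γ, δ, e6'⟩ := comb 3 4 6 3 (by decide) (by decide) (by decide) (by decide)
  obtain ⟨ε, ζ, e7''⟩ := comb 5 4 7 4 (by decide) (by decide) (by decide) (by decide)
  -- coordinates
  obtain ⟨a1, a2, a3⟩ := uni p1 p2 0 (t * x5) (t * y5) (s + t * z5) (by
    rw [zero_smul, add_zero, ← e3, e3', e5]
    simp only [smul_add, add_smul, mul_smul]; abel)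
  obtain ⟨b1, b2, b3⟩ := uni (s' * x5 + t') (s' * y5) (s' * z5) (γ * p1) (γ * p2 + δ * q1)
    (δ * q2) (by
    have h : v 6 = (s' * x5 + t') • v 0 + (s' * y5) • v 1 + (s' * z5) • v 2 := by
      rw [e6, e5]; simp only [smul_add, add_smul, mul_smul]; abel
    rw [← h, e6', e3, e4]
    simp only [smul_add, add_smul, mul_smul]; abel)
  have h6 : v 6 = (γ * p1) • v 0 + (s' * y5) • v 1 + (s' * z5) • v 2 := by
    rw [← b1, e6, e5]; simp only [smul_add, add_smul, mul_smul]; abel
  obtain ⟨c1, c2, c3⟩ := uni (α * (γ * p1)) (α * (s' * y5) + β) (α * (s' * z5))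
    (ε * x5) (ε * y5 + ζ * q1) (ε * z5 + ζ * q2) (by
    have h : v 7 = (α * (γ * p1)) • v 0 + (α * (s' * y5) + β) • v 1 + (α * (s' * z5)) • v 2 := by
      rw [e7', h6]; simp only [smul_add, add_smul, mul_smul]; abel
    rw [← h, e7'', e5, e4]
    simp only [smul_add, add_smul, mul_smul]; abel)
  obtain ⟨d1, d2, d3⟩ := uni r1 0 r2 (ε * x5) (ε * y5 + ζ * q1) (ε * z5 + ζ * q2) (by
    rw [zero_smul, add_zero, ← e7, e7'', e5, e4]
    simp only [smul_add, add_smul, mul_smul]; abel)
  -- the algebra
  have hα : α ≠ 0 := by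
    rintro rfl
    rw [zero_smul, zero_add] at e7'
    exact ne_span 1 7 (by decide) (Submodule.mem_span_singleton.2 ⟨β, e7'.symm⟩)
  have hs' : s' ≠ 0 := by
    rintro rfl
    rw [zero_smul, zero_add] at e6
    exact ne_span 0 6 (by decide) (Submodule.mem_span_singleton.2 ⟨t', e6.symm⟩)
  set g := γ * t with hg
  have hε : ε = α * g := by
    have : (ε - α * g) * x5 = 0 := by rw [a1] at c1; linear_combination -c1
    rcases mul_eq_zero.1 this with h | h
    · exact sub_eq_zero.1 h
    · exact absurd h hx5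
  have k1 : δ * q1 = (s' - g) * y5 := by rw [a2] at b2; linear_combination -b2
  have k2 : δ * q2 = s' * z5 := b3.symm
  have k3 : ζ * q2 = α * (s' - g) * z5 := by linear_combination -c3 - z5 * hε
  have k4 : ζ * q1 = - (α * g * y5) := by linear_combination -d2 - y5 * hε
  have k5 : α * y5 * z5 * (s' ^ 2 - g * s' + g ^ 2) = 0 := by
    have h1 : (ζ * q2) * (δ * q1) = (ζ * q1) * (δ * q2) := by ring
    rw [k1, k2, k3, k4] at h1
    linear_combination h1
  have k6 : s' ^ 2 - g * s' + g ^ 2 = 0 := by
    rcases mul_eq_zero.1 k5 with h | h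
    · exact absurd h (mul_ne_zero (mul_ne_zero hα hy5) hz5)
    · exact h
  have hg0 : g ≠ 0 := by
    intro h
    rw [h] at k6
    apply hs'
    have : s' ^ 2 = 0 := by linear_combination k6
    exact pow_eq_zero_iff (two_ne_zero) |>.1 this
  refine ⟨s' / g, ?_⟩
  field_simp
  linear_combination k6

/-- the points of the standard realization -/
def pt (b : F) : Fin 8 → V F :=
  ![![1, 0, 0], ![0, 1, 0], ![0, 0, 1], ![1, 1, 0], ![0, 1, 1 - b], ![1, 1, 1], ![1 - b, 1, 1],
    ![1, 0, b]]

/-- the lines of the standard realization -/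
def ln (b : F) : Fin 8 → V F :=
  ![![0, 0, 1], ![1, 0, 0], ![1, -1, 0], ![1 - b, -(1 - b), 1], ![b, 1 - b, -1], ![0, 1, -1],
    ![b, 0, -1], ![0, 1, 0]]

theorem dot_eq (b : F) (hb : b ^ 2 - b + 1 = 0) (i j : Fin 8) :
    pt b i ⬝ᵥ ln b j = 0 ↔ Inc i j := by
  have hb0 : b ≠ 0 := by
    rintro rfl
    simp at hb
  have hb1 : 1 - b ≠ 0 := by
    intro h
    have : b = 1 := (sub_eq_zero.1 h).symm
    rw [this] at hb
    norm_num at hb
  have h2 : (1 - b) * b = 1 := by linear_combination -hb
  have h3 : b * (1 - b) = 1 := by linear_combination -hb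
  have h4 : b - 1 ≠ 0 := by rw [← neg_sub]; exact neg_ne_zero.2 hb1
  have h5 : b ≠ 1 := by
    rintro rfl
    exact hb1 (sub_self _)
  have e : ∀ x y : V F, x ⬝ᵥ y = x 0 * y 0 + x 1 * y 1 + x 2 * y 2 := by
    intro x y
    simp [dotProduct, Fin.sum_univ_three]
  rw [e]
  have key : ∀ i j : Fin 8, Inc i j → pt b i 0 * ln b j 0 + pt b i 1 * ln b j 1
      + pt b i 2 * ln b j 2 = 0 := by
    intro i j hij
    fin_cases i <;> fin_cases j <;> first
      | (exfalso; revert hij; decide)
      | (simp [pt, ln]; done)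
      | (simp [pt, ln]; linear_combination hb)
      | (simp [pt, ln]; linear_combination -hb)
  have key2 : ∀ i j : Fin 8, ¬ Inc i j → pt b i 0 * ln b j 0 + pt b i 1 * ln b j 1
      + pt b i 2 * ln b j 2 ≠ 0 := by
    intro i j hij
    fin_cases i <;> fin_cases j <;> first
      | (exfalso; revert hij; decide)
      | (simp [pt, ln]; done)
      | (simp [pt, ln]; assumption)
      | (intro h; apply hb0; simp [pt, ln] at h; linear_combination h)
      | (intro h; apply hb0; simp [pt, ln] at h; linear_combination -h)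
      | (intro h; apply hb1; simp [pt, ln] at h; linear_combination h)
      | (intro h; apply hb1; simp [pt, ln] at h; linear_combination -h)
      | (intro h; apply hb1; simp [pt, ln] at h; linear_combination h + hb)
  constructor
  · intro h
    by_contra hc
    exact key2 i j hc h
  · exact key i j

lemma inc_left : ∀ i k : Fin 8, (∀ j, Inc i j ↔ Inc k j) → i = k := by decide

lemma inc_right : ∀ j k : Fin 8, (∀ i, Inc i j ↔ Inc i k) → j = k := by decide

lemma ex_left : ∀ i : Fin 8, ∃ j, ¬ Inc i j := by decide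

lemma ex_right : ∀ j : Fin 8, ∃ i, ¬ Inc i j := by decide

/-- A root of `x² - x + 1` gives a realization of the Moebius-Kantor configuration. -/
theorem realization_of_root (b : F) (hb : b ^ 2 - b + 1 = 0) :
    ∃ (P L : Fin 8 → Submodule F (Fin 3 → F)), (∀ i, finrank F (P i) = 1) ∧
      (∀ j, finrank F (L j) = 2) ∧ Function.Injective P ∧ Function.Injective L ∧
      ∀ i j, Inc i j → P i ≤ L j := by
  have hdot := dot_eq b hb
  have hpt : ∀ i, pt b i ≠ 0 := by
    intro i hi
    obtain ⟨j, hj⟩ := ex_left i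
    apply hj
    rw [← hdot, hi, zero_dotProduct]
  have hln : ∀ j, ln b j ≠ 0 := by
    intro j hj
    obtain ⟨i, hi⟩ := ex_right j
    apply hi
    rw [← hdot, hj, dotProduct_zero]
  let φ : Fin 8 → Module.Dual F (Fin 3 → F) := fun j => (dotProductEquiv F (Fin 3)) (ln b j)
  have hφ : ∀ j x, φ j x = x ⬝ᵥ ln b j := by
    intro j x
    simp [φ, dotProduct_comm]
  have hφ0 : ∀ j, φ j ≠ 0 := by
    intro j hj
    exact hln j ((dotProductEquiv F (Fin 3)).map_eq_zero_iff.1 hj)
  have fin3 : finrank F (Fin 3 → F) = 3 := by simp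
  have hE : ∀ i j : Fin 8, Submodule.span F {pt b i} ≤ LinearMap.ker (φ j) ↔ Inc i j := by
    intro i j
    rw [Submodule.span_singleton_le_iff_mem, LinearMap.mem_ker, hφ, hdot]
  refine ⟨fun i => Submodule.span F {pt b i}, fun j => LinearMap.ker (φ j), ?_, ?_, ?_, ?_, ?_⟩
  · intro i
    exact finrank_span_singleton (hpt i)
  · intro j
    have h1 := Module.Dual.finrank_ker_add_one_of_ne_zero (hφ0 j)
    rw [fin3] at h1
    exact Nat.succ_injective h1
  · intro i k h
    apply inc_left
    intro j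
    rw [← hE, ← hE]
    exact iff_of_eq (congrArg (· ≤ LinearMap.ker (φ j)) h)
  · intro j k h
    apply inc_right
    intro i
    rw [← hE, ← hE]
    exact iff_of_eq (congrArg (Submodule.span F {pt b i} ≤ ·) h)
  · intro i j hij
    exact (hE i j).2 hij

end Pool.Agent.N395.MK
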