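import Pool.Agent.N576.MX3.E

/-!
# MX3/BRC: few branching nodes in a pair of cones, from linear forms in three logarithms
-/

set_option autoImplicit false
namespace Pool.Agent.N395.MX3
open Finset

lemma step1 {N κ G F L Λ h : ℝ} (hh : 1 ≤ h) (hΛ : 0 < Λ) (hN : 1 ≤ N) (hN2 : N ≤ h ^ 4) (hκ : 0 ≤ κ)
    (hκ2 : κ ≤ h ^ 4) (e1 : |L - 2 * (1 - κ / N) * G| ≤ 10600 * h ^ 11 / Λ)
    (e2 : |F - κ / N * G| ≤ 32 * h ^ 6 / Λ) : |κ * L - 2 * (N - κ) * F| ≤ 10664 * h ^ 15 / Λ := by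
  have hN0 : N ≠ 0 := by linarith
  have id1 : κ * L - 2 * (N - κ) * F =
      κ * (L - 2 * (1 - κ / N) * G) - 2 * (N - κ) * (F - κ / N * G) := by
    field_simp
    ring
  have hm : |N - κ| ≤ h ^ 4 := by
    rw [abs_le]
    constructor <;> linarith
  have t1 : |κ * (L - 2 * (1 - κ / N) * G)| ≤ h ^ 4 * (10600 * h ^ 11 / Λ) := by
    rw [abs_mul, abs_of_nonneg hκ]
    exact mul_le_mul hκ2 e1 (abs_nonneg _) (by positivity)
  have t2 : |2 * (N - κ) * (F - κ / N * G)| ≤ 2 * h ^ 4 * (32 * h ^ 6 / Λ) := by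
    rw [abs_mul, abs_mul, abs_two]
    exact mul_le_mul (by linarith) e2 (abs_nonneg _) (by positivity)
  rw [id1]
  have h10 : h ^ 10 ≤ h ^ 15 := pow_le_pow_right₀ hh (by norm_num)
  calc |κ * (L - 2 * (1 - κ / N) * G) - 2 * (N - κ) * (F - κ / N * G)|
      ≤ |κ * (L - 2 * (1 - κ / N) * G)| + |2 * (N - κ) * (F - κ / N * G)| := abs_sub _ _
    _ ≤ h ^ 4 * (10600 * h ^ 11 / Λ) + 2 * h ^ 4 * (32 * h ^ 6 / Λ) := add_le_add t1 t2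
    _ = (10600 * h ^ 15 + 64 * h ^ 10) / Λ := by
        field_simp
        ring
    _ ≤ 10664 * h ^ 15 / Λ := by
        apply div_le_div_of_nonneg_right _ hΛ.le
        linarith

lemma step2 {B1 B2 B3 E1 E2 E3 F1 F2 F3 Λ h : ℝ} (hΛ : 0 < Λ) (hh : 1 ≤ h)
    (b1 : |B1| ≤ h ^ 2) (b2 : |B2| ≤ h ^ 2) (b3 : |B3| ≤ h ^ 2) (hE : B1 * E1 + B2 * E2 + B3 * E3 = 0)
    (f1 : |F1 - E1| ≤ 32 * h / Λ) (f2 : |F2 - E2| ≤ 32 * h / Λ) (f3 : |F3 - E3| ≤ 32 * h / Λ) :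
    |B1 * F1 + B2 * F2 + B3 * F3| ≤ 96 * h ^ 3 / Λ := by
  have id1 : B1 * F1 + B2 * F2 + B3 * F3 = B1 * (F1 - E1) + B2 * (F2 - E2) + B3 * (F3 - E3) := by
    linarith
  have aux : ∀ B X : ℝ, |B| ≤ h ^ 2 → |X| ≤ 32 * h / Λ → |B * X| ≤ h ^ 2 * (32 * h / Λ) := by
    intro B X h1 h2
    rw [abs_mul]
    exact mul_le_mul h1 h2 (abs_nonneg _) (by positivity)
  rw [id1]
  have t1 := aux _ _ b1 f1
  have t2 := aux _ _ b2 f2
  have t3 := aux _ _ b3 f3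
  have t4 := abs_add_three (B1 * (F1 - E1)) (B2 * (F2 - E2)) (B3 * (F3 - E3))
  have e : 96 * h ^ 3 / Λ = 3 * (h ^ 2 * (32 * h / Λ)) := by
    field_simp
    ring
  rw [e]
  linarith

lemma step3 {N κ1 κ2 κ3 F1 F2 F3 L1 L2 L3 B1 B2 B3 Λ h : ℝ} (hΛ : 0 < Λ) (hh : 1 ≤ h)
    (b1 : |B1| ≤ h ^ 2) (b2 : |B2| ≤ h ^ 2) (b3 : |B3| ≤ h ^ 2)
    (m1 : |N - κ1| ≤ h ^ 4) (m2 : |N - κ2| ≤ h ^ 4) (m3 : |N - κ3| ≤ h ^ 4)
    (s1 : |κ1 * L1 - 2 * (N - κ1) * F1| ≤ 10664 * h ^ 15 / Λ)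
    (s2 : |κ2 * L2 - 2 * (N - κ2) * F2| ≤ 10664 * h ^ 15 / Λ)
    (s3 : |κ3 * L3 - 2 * (N - κ3) * F3| ≤ 10664 * h ^ 15 / Λ)
    (hF : |B1 * F1 + B2 * F2 + B3 * F3| ≤ 96 * h ^ 3 / Λ) :
    |B1 * κ1 * (N - κ2) * (N - κ3) * L1 + B2 * κ2 * (N - κ1) * (N - κ3) * L2 +
      B3 * κ3 * (N - κ1) * (N - κ2) * L3| ≤ 32184 * h ^ 25 / Λ := by
  have id1 : B1 * κ1 * (N - κ2) * (N - κ3) * L1 + B2 * κ2 * (N - κ1) * (N - κ3) * L2 +
      B3 * κ3 * (N - κ1) * (N - κ2) * L3 =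
      (B1 * (N - κ2) * (N - κ3) * (κ1 * L1 - 2 * (N - κ1) * F1) +
        B2 * (N - κ1) * (N - κ3) * (κ2 * L2 - 2 * (N - κ2) * F2) +
        B3 * (N - κ1) * (N - κ2) * (κ3 * L3 - 2 * (N - κ3) * F3)) +
      2 * (N - κ1) * (N - κ2) * (N - κ3) * (B1 * F1 + B2 * F2 + B3 * F3) := by
    ring
  have aux : ∀ B x y X : ℝ, |B| ≤ h ^ 2 → |x| ≤ h ^ 4 → |y| ≤ h ^ 4 → |X| ≤ 10664 * h ^ 15 / Λ →
      |B * x * y * X| ≤ h ^ 2 * h ^ 4 * h ^ 4 * (10664 * h ^ 15 / Λ) := by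
    intro B x y X h1 h2 h3 h4
    rw [abs_mul, abs_mul, abs_mul]
    have g1 : |B| * |x| ≤ h ^ 2 * h ^ 4 := mul_le_mul h1 h2 (abs_nonneg _) (by positivity)
    have g2 : |B| * |x| * |y| ≤ h ^ 2 * h ^ 4 * h ^ 4 := mul_le_mul g1 h3 (abs_nonneg _) (by positivity)
    exact mul_le_mul g2 h4 (abs_nonneg _) (by positivity)
  have t1 := aux _ _ _ _ b1 m2 m3 s1
  have t2 := aux _ _ _ _ b2 m1 m3 s2
  have t3 := aux _ _ _ _ b3 m1 m2 s3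
  have t5 : |2 * (N - κ1) * (N - κ2) * (N - κ3) * (B1 * F1 + B2 * F2 + B3 * F3)| ≤
      2 * h ^ 4 * h ^ 4 * h ^ 4 * (96 * h ^ 3 / Λ) := by
    rw [abs_mul, abs_mul, abs_mul, abs_mul, abs_two]
    have g1 : 2 * |N - κ1| ≤ 2 * h ^ 4 := by linarith
    have g2 : 2 * |N - κ1| * |N - κ2| ≤ 2 * h ^ 4 * h ^ 4 := mul_le_mul g1 m2 (abs_nonneg _) (by positivity)
    have g3 : 2 * |N - κ1| * |N - κ2| * |N - κ3| ≤ 2 * h ^ 4 * h ^ 4 * h ^ 4 :=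
      mul_le_mul g2 m3 (abs_nonneg _) (by positivity)
    exact mul_le_mul g3 hF (abs_nonneg _) (by positivity)
  rw [id1]
  have t4 := abs_add_three (B1 * (N - κ2) * (N - κ3) * (κ1 * L1 - 2 * (N - κ1) * F1))
    (B2 * (N - κ1) * (N - κ3) * (κ2 * L2 - 2 * (N - κ2) * F2))
    (B3 * (N - κ1) * (N - κ2) * (κ3 * L3 - 2 * (N - κ3) * F3))
  refine (abs_add_le _ _).trans ?_
  have h15 : h ^ 15 ≤ h ^ 25 := pow_le_pow_right₀ hh (by norm_num)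
  have e1 : h ^ 2 * h ^ 4 * h ^ 4 * (10664 * h ^ 15 / Λ) = 10664 * h ^ 25 / Λ := by
    field_simp
  have e2 : 2 * h ^ 4 * h ^ 4 * h ^ 4 * (96 * h ^ 3 / Λ) = 192 * h ^ 15 / Λ := by
    field_simp
    ring
  have e3 : 192 * h ^ 15 / Λ ≤ 192 * h ^ 25 / Λ := by
    apply div_le_div_of_nonneg_right _ hΛ.le
    linarith
  have e4 : 32184 * h ^ 25 / Λ = 10664 * h ^ 25 / Λ + 10664 * h ^ 25 / Λ + 10664 * h ^ 25 / Λ +
      192 * h ^ 25 / Λ := by ring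
  rw [e1] at t1 t2 t3
  rw [e2] at t5
  rw [e4]
  linarith

/-- the size of `Λ` -/
lemma size_Λ {C1 h Λ : ℝ} {K1 : ℕ} (hC1 : 1 ≤ C1) (hh : 2 ≤ h)
    (hΛ : Real.exp ((1400 + C1 * 14 ^ K1) * (Real.log h + 1) ^ (K1 + 1)) ≤ Λ) :
    32184 * h ^ 25 / Λ < Real.exp (-(C1 * Real.log (h ^ 14) ^ K1)) := by
  have h0 : 0 < h := by linarith
  have hl : 0 ≤ Real.log h := Real.log_nonneg (by linarith)
  have hΛ0 : 0 < Λ := lt_of_lt_of_le (Real.exp_pos _) hΛ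
  rw [div_lt_iff₀ hΛ0]
  obtain ⟨x, hx⟩ : ∃ x : ℝ, x = Real.log h + 1 := ⟨_, rfl⟩
  have hx1 : 1 ≤ x := by linarith
  rw [← hx] at hΛ
  have e1 : Real.log (h ^ 14) = 14 * Real.log h := by
    rw [Real.log_pow]
    norm_num
  have p1 : (14 * Real.log h) ^ K1 ≤ 14 ^ K1 * x ^ (K1 + 1) := by
    rw [mul_pow]
    apply mul_le_mul_of_nonneg_left _ (by positivity)
    calc Real.log h ^ K1 ≤ x ^ K1 := pow_le_pow_left₀ hl (by linarith) _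
      _ ≤ x ^ (K1 + 1) := pow_le_pow_right₀ hx1 (by omega)
  have p2 : x ≤ x ^ (K1 + 1) := by
    calc x = x ^ 1 := (pow_one x).symm
      _ ≤ x ^ (K1 + 1) := pow_le_pow_right₀ hx1 (by omega)
  have p3 : (14 : ℝ) + 25 * Real.log h < 1400 * x ^ (K1 + 1) := by nlinarith
  have q1 : (32184 : ℝ) ≤ Real.exp 14 := by
    have h1 : (2.7 : ℝ) ≤ Real.exp 1 := by
      have := Real.exp_one_gt_d9
      linarith
    have h2 : Real.exp 14 = Real.exp 1 ^ 14 := by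
      rw [← Real.exp_nat_mul]
      norm_num
    rw [h2]
    calc (32184 : ℝ) ≤ 2.7 ^ 14 := by norm_num
      _ ≤ Real.exp 1 ^ 14 := pow_le_pow_left₀ (by norm_num) h1 _
  have q2 : h ^ 25 = Real.exp (25 * Real.log h) := by
    rw [show (25 : ℝ) * Real.log h = ((25 : ℕ) : ℝ) * Real.log h by norm_num, Real.exp_nat_mul,
      Real.exp_log h0]
  rw [e1]
  calc 32184 * h ^ 25 ≤ Real.exp 14 * Real.exp (25 * Real.log h) := by
        rw [q2]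
        exact mul_le_mul_of_nonneg_right q1 (Real.exp_pos _).le
    _ = Real.exp (14 + 25 * Real.log h) := (Real.exp_add _ _).symm
    _ < Real.exp (-(C1 * (14 * Real.log h) ^ K1) + (1400 + C1 * 14 ^ K1) * x ^ (K1 + 1)) := by
        apply Real.exp_lt_exp.2
        have := mul_le_mul_of_nonneg_left p1 (by linarith : (0 : ℝ) ≤ C1)
        nlinarith
    _ = Real.exp (-(C1 * (14 * Real.log h) ^ K1)) * Real.exp ((1400 + C1 * 14 ^ K1) * x ^ (K1 + 1)) :=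
        Real.exp_add _ _
    _ ≤ Real.exp (-(C1 * (14 * Real.log h) ^ K1)) * Λ :=
        mul_le_mul_of_nonneg_left hΛ (Real.exp_pos _).le


open Pool.Agent.H499R2 Pool.Agent.TH880.MK Pool.Agent.N576.MX3

lemma dl_small {Λ : ℝ} {k : List Bool} (hΛ : 0 < Λ) (ha : Λ ≤ 4 * ((desc root k).a : ℝ) ^ 2) :
    dl (desc root k) ≤ 16 / Λ := by
  have zk := zvd k
  have ha1 : (1 : ℝ) ≤ (desc root k).a := by exact_mod_cast zk.a1
  have hb1 : (1 : ℝ) ≤ (desc root k).b := by exact_mod_cast zk.b1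
  have ha2 : (1 : ℝ) ≤ ((desc root k).a : ℝ) ^ 2 := one_le_pow₀ ha1
  have hb2 : (1 : ℝ) ≤ ((desc root k).b : ℝ) ^ 2 := one_le_pow₀ hb1
  unfold dl
  rw [div_le_div_iff₀ (by positivity) hΛ]
  nlinarith

lemma dt_small {H : ℕ} {a b : List Bool} (ha : sz a ≤ H) (hb : sz b ≤ H) :
    |(dt (zz a) (zz b) : ℝ)| ≤ (H : ℝ) ^ 2 := by
  refine (dt_bound (zz a) b).trans ?_
  rw [nm_zz, sq]
  have h1 : (sz a : ℝ) ≤ H := by exact_mod_cast ha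
  have h2 : (sz b : ℝ) ≤ H := by exact_mod_cast hb
  exact mul_le_mul h1 h2 (Nat.cast_nonneg _) (Nat.cast_nonneg _)

lemma F_small {H : ℕ} {Λ : ℝ} {k i : List Bool} (hΛ : 0 < Λ) (ha : Λ ≤ 4 * ((desc root k).a : ℝ) ^ 2)
    (ki : k <+: i) (si : sz i ≤ H) : |FF i - ell (desc root k) (zz i)| ≤ 32 * (H : ℝ) / Λ := by
  refine (F_linL ki si).trans ?_
  have h1 := dl_small hΛ ha
  have h2 : 32 * (H : ℝ) / Λ = 2 * (16 / Λ) * H := by ring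
  rw [h2]
  exact mul_le_mul_of_nonneg_right (by linarith) (Nat.cast_nonneg _)

lemma dt_ne {x y : List Bool} (h : x ≠ y) : dt (zz x) (zz y) ≠ 0 := by
  rcases ne_dt h with h1 | h1
  · exact h1.ne'
  · rw [dt_comm]
    omega

lemma pluck (X : Nd) (z1 z2 z3 : ℤ × ℤ) : (dt z2 z3 : ℝ) * ell X z1 + (dt z3 z1 : ℝ) * ell X z2 +
    (dt z1 z2 : ℝ) * ell X z3 = 0 := by
  have h := ell_pluck X z1 z2 z3
  have e1 : (dt z2 z3 : ℝ) = -(dt z3 z2 : ℝ) := by rw [dt_comm z2 z3]; push_cast; ring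
  have e2 : (dt z3 z1 : ℝ) = -(dt z1 z3 : ℝ) := by rw [dt_comm z3 z1]; push_cast; ring
  rw [e1, e2]
  linarith

/-- the numerical bound -/
lemma count_le {H a : ℕ} {t : ℝ} (hH : 2 ≤ H) (ha : (a : ℝ) ≤ (2 * Nat.log 2 (H ^ 4) + 1) ^ 2 + 2)
    (ht : t ≤ 9 * a) : t ≤ 1400 * (Real.log H + 1) ^ 2 := by
  have hH2 : (2 : ℝ) ≤ H := by exact_mod_cast hH
  have hl : 0 ≤ Real.log H := Real.log_nonneg (by linarith)
  have h1 : (Nat.log 2 (H ^ 4) : ℝ) ≤ 6 * Real.log H := by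
    have h2 : 2 ^ Nat.log 2 (H ^ 4) ≤ H ^ 4 := Nat.pow_log_le_self 2 (by positivity)
    have h3 : ((2 : ℝ)) ^ Nat.log 2 (H ^ 4) ≤ (H : ℝ) ^ 4 := by exact_mod_cast h2
    have h4 := Real.log_le_log (by positivity) h3
    rw [Real.log_pow, Real.log_pow] at h4
    have h5 := Real.log_two_gt_d9
    have h6 : (0 : ℝ) ≤ Nat.log 2 (H ^ 4) := Nat.cast_nonneg _
    push_cast at h4
    have h8 := mul_nonneg (sub_nonneg.2 h5.le) h6
    linarith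
  have h0 : (0 : ℝ) ≤ Nat.log 2 (H ^ 4) := Nat.cast_nonneg _
  have h7 : (2 * (Nat.log 2 (H ^ 4) : ℝ) + 1) ^ 2 ≤ (12 * (Real.log H + 1)) ^ 2 :=
    pow_le_pow_left₀ (by linarith) (by linarith) 2
  have h8 : 1 ≤ (Real.log H + 1) ^ 2 := one_le_pow₀ (by linarith)
  have h9 : (12 * (Real.log H + 1)) ^ 2 = 144 * (Real.log H + 1) ^ 2 := by ring
  linarith

theorem brc_of (h1 : B3) (h2 : RANK2) : BRC := by
  obtain ⟨C1, K1, hC1, hB⟩ := h1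
  refine ⟨1400 + C1 * 14 ^ K1, K1 + 1, ?_, ?_⟩
  · have : 0 ≤ C1 * 14 ^ K1 := by positivity
    linarith
  intro H Λ k k' R hH hΛ h hne T hT
  classical
  have hHr : (2 : ℝ) ≤ H := by exact_mod_cast hH
  have hH1 : (1 : ℝ) ≤ H := by linarith
  have hlog : 0 ≤ Real.log H := Real.log_nonneg hH1
  have hCle : 1400 * (Real.log H + 1) ^ 2 ≤ (1400 + C1 * 14 ^ K1) * (Real.log H + 1) ^ 2 := by
    have : 0 ≤ C1 * 14 ^ K1 := by positivity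
    apply mul_le_mul_of_nonneg_right _ (by positivity)
    linarith
  refine le_trans ?_ hCle
  rcases T.eq_empty_or_nonempty with hemp | ⟨i0, hi0⟩
  · rw [hemp, Finset.card_empty, Nat.cast_zero]
    positivity
  obtain ⟨ki0, hB0⟩ := hT i0 hi0
  obtain ⟨⟨a1, a1', a2, a2', hane, ra1, ra2, -, -⟩, -⟩ := hB0
  have S := h.sys ra1 ra2 hane
  obtain ⟨n, hn⟩ : ∃ n, n = dt (zz a1) (zz a2) := ⟨_, rfl⟩
  obtain ⟨n', hn'⟩ : ∃ n', n' = dt (zz a1') (zz a2') := ⟨_, rfl⟩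
  obtain ⟨M, hM⟩ : ∃ M, M = MM (zz a1) (zz a2) (zz a1') (zz a2') := ⟨_, rfl⟩
  rw [← hn, ← hn', ← hM] at S
  have hnn : n * n' ≠ 0 := mul_ne_zero S.mat.hn S.mat.hn'
  have hN0 : (n * n').natAbs ≠ 0 := Int.natAbs_ne_zero.mpr hnn
  have hNle : (n * n').natAbs ≤ H ^ 4 := by
    have h1 : |(n : ℝ)| * |(n' : ℝ)| ≤ (H : ℝ) ^ 2 * H ^ 2 :=
      mul_le_mul S.mat.bn S.mat.bn' (abs_nonneg _) (by positivity)
    have h2 : (((n * n').natAbs : ℕ) : ℝ) = |(n : ℝ)| * |(n' : ℝ)| := by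
      rw [← abs_mul, Nat.cast_natAbs]; push_cast; rfl
    have h3 : (((n * n').natAbs : ℕ) : ℝ) ≤ ((H ^ 4 : ℕ) : ℝ) := by
      rw [h2]; push_cast; calc |(n : ℝ)| * |(n' : ℝ)| ≤ (H : ℝ) ^ 2 * H ^ 2 := h1
        _ = H ^ 4 := by ring
    exact_mod_cast h3
  by_cases habs : |n| = |n'|
  · have hc1 := caseI_card S hne habs T hT
    have hc2 : (T.card : ℝ) ≤ 1 := by exact_mod_cast hc1
    have : 1 ≤ (Real.log H + 1) ^ 2 := one_le_pow₀ (by linarith)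
    linarith
  have hch : ∀ i ∈ T, ∃ (j : List Bool) (κ : ℤ), NM H n n' M k' i j κ ∧ sz i ≤ H ∧ sz j ≤ 2 * H :=
    fun i hi => br_node S (hT i hi).1 (hT i hi).2
  choose! j κ hNM hsi hsj using hch
  have hκ : ∀ i ∈ T, |κ i| ≠ |n| := by
    intro i hi hc
    have N := hNM i hi
    apply habs
    have hkn : κ i = n := by
      rcases abs_eq_abs.mp hc with h4 | h4
      · exact h4
      · exfalso
        have hs := N.sg
        rw [h4] at hs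
        have : 0 ≤ n * n := mul_self_nonneg n
        have h5 : n * -n = - (n * n) := by ring
        omega
    exact (N.eq hkn).1.symm
  obtain ⟨g, hg⟩ : ∃ g : List Bool → ℕ, ∀ i, g i = (κ i).natAbs := ⟨fun i => (κ i).natAbs, fun i => rfl⟩
  have hcard : T.card ≤ (T.image g ×ˢ Finset.range 9).card := by
    apply Finset.card_le_card_of_injOn (fun i => (g i, ty k k' i (j i)))
    · intro i hi
      simp only [Finset.coe_product, Set.mem_prod, Finset.mem_coe, Finset.mem_range]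
      exact ⟨Finset.mem_image_of_mem _ hi, ty_lt _ _ _ _⟩
    · intro i hi i' hi' heq
      simp only [Prod.mk.injEq] at heq
      rw [hg, hg] at heq
      have N := hNM i hi
      have N' := hNM i' hi'
      have hkk : κ i' = κ i := by
        rcases Int.natAbs_eq_natAbs_iff.mp heq.1 with h4 | h4
        · exact h4.symm
        · exfalso
          have h5 := N.sg
          have h6 := N'.sg
          rw [h4] at h5
          have : n * -κ i' = - (n * κ i') := by ring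
          omega
      rw [hkk] at N'
      exact same_node hH S h.irr h.irr' N N' (hT i hi).1 (hT i' hi').1 (hκ i hi) (hsi i hi) (hsi i' hi')
        (hsj i hi) (hsj i' hi') heq.2
  rw [Finset.card_product, Finset.card_range] at hcard
  have hΛ0 : 0 < Λ := lt_of_lt_of_le (Real.exp_pos _) hΛ
  have zk := zvd k
  have zk' := zvd k'
  -- the data of the nodes
  have node : ∀ i ∈ T, 1 ≤ g i ∧ g i ≤ H ^ 4 ∧ g i ≠ n.natAbs ∧
      |(g i : ℝ) * Real.log ((n'.natAbs : ℝ) / (g i : ℝ)) - 2 * ((n.natAbs : ℝ) - (g i : ℝ)) * FF i| ≤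
        10664 * (H : ℝ) ^ 15 / Λ := by
    intro i hi
    have N := hNM i hi
    have hκ0 : κ i ≠ 0 := by
      rintro h0
      have := N.sg
      rw [h0, mul_zero] at this
      exact lt_irrefl _ this
    have g1 : 1 ≤ g i := by
      rw [hg]
      exact Nat.one_le_iff_ne_zero.2 (Int.natAbs_ne_zero.2 hκ0)
    have g2 : g i ≤ H ^ 4 := by
      rw [hg]
      exact (Nat.le_of_dvd (Nat.pos_of_ne_zero hN0) (Int.natAbs_dvd_natAbs.mpr N.dv)).trans hNle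
    have g3 : g i ≠ n.natAbs := by
      intro h0
      rw [hg] at h0
      apply hκ i hi
      rw [Int.abs_eq_natAbs, Int.abs_eq_natAbs, h0]
    have abi := ab_prefix (hT i hi).1
    have abj := ab_prefix N.pre
    obtain ⟨c1, c2⟩ := N.acc Λ S.hs (sq4_mono zk.a1 abi.1 S.ha) (sq4_mono zk.b1 abi.2 S.hb)
      (sq4_mono zk'.a1 abj.1 S.ha') (sq4_mono zk'.b1 abj.2 S.hb')
    have hgr : (g i : ℝ) = ((|κ i| : ℤ) : ℝ) := by rw [hg]; exact Nat.cast_natAbs _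
    have hnr : (n.natAbs : ℝ) = ((|n| : ℤ) : ℝ) := Nat.cast_natAbs _
    have hn'r : (n'.natAbs : ℝ) = ((|n'| : ℤ) : ℝ) := Nat.cast_natAbs _
    have c1' : |Real.log ((n'.natAbs : ℝ) / (g i : ℝ)) -
        2 * (1 - (g i : ℝ) / (n.natAbs : ℝ)) * ga (desc root (j i))| ≤ 10600 * (H : ℝ) ^ 11 / Λ := by
      rw [hgr, hnr, hn'r]
      exact c1
    have c2' : |FF i - (g i : ℝ) / (n.natAbs : ℝ) * ga (desc root (j i))| ≤ 32 * (H : ℝ) ^ 6 / Λ := by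
      rw [hgr, hnr, Int.cast_abs, Int.cast_abs]
      exact c2
    have hN1 : (1 : ℝ) ≤ (n.natAbs : ℝ) :=
      Nat.one_le_cast.2 (Nat.one_le_iff_ne_zero.2 (Int.natAbs_ne_zero.2 S.mat.hn))
    have hN4 : (n.natAbs : ℝ) ≤ (H : ℝ) ^ 4 := by
      have e1 : (n.natAbs : ℝ) ≤ (H : ℝ) ^ 2 := by
        rw [hnr, Int.cast_abs]
        exact S.mat.bn
      exact e1.trans (pow_le_pow_right₀ hH1 (by norm_num))
    have g2' : (g i : ℝ) ≤ (H : ℝ) ^ 4 := by exact_mod_cast g2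
    exact ⟨g1, g2, g3, step1 hH1 hΛ0 hN1 hN4 (Nat.cast_nonneg _) g2' c1' c2'⟩
  have hn'1 : 1 ≤ n'.natAbs := Nat.one_le_iff_ne_zero.2 (Int.natAbs_ne_zero.2 S.mat.hn')
  have hn'2 : n'.natAbs ≤ H ^ 2 := by
    have e1 : (n'.natAbs : ℝ) ≤ (H : ℝ) ^ 2 := by
      rw [show (n'.natAbs : ℝ) = ((|n'| : ℤ) : ℝ) from Nat.cast_natAbs _, Int.cast_abs]
      exact S.mat.bn'
    have e2 : ((n'.natAbs : ℕ) : ℝ) ≤ ((H ^ 2 : ℕ) : ℝ) := by
      rw [Nat.cast_pow]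
      exact e1
    exact Nat.cast_le.1 e2
  have hn2 : n.natAbs ≤ H ^ 2 := by
    have e1 : (n.natAbs : ℝ) ≤ (H : ℝ) ^ 2 := by
      rw [show (n.natAbs : ℝ) = ((|n| : ℤ) : ℝ) from Nat.cast_natAbs _, Int.cast_abs]
      exact S.mat.bn
    have e2 : ((n.natAbs : ℕ) : ℝ) ≤ ((H ^ 2 : ℕ) : ℝ) := by
      rw [Nat.cast_pow]
      exact e1
    exact Nat.cast_le.1 e2
  have hH24 : H ^ 2 ≤ H ^ 4 := Nat.pow_le_pow_right (by omega) (by norm_num)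
  -- the relation
  have rel : ∀ i1 ∈ T, ∀ i2 ∈ T, ∀ i3 ∈ T, i1 ≠ i2 → ∃ a b c : ℤ, c ≠ 0 ∧
      a * Real.log ((n'.natAbs : ℝ) / (g i1 : ℝ)) + b * Real.log ((n'.natAbs : ℝ) / (g i2 : ℝ)) +
        c * Real.log ((n'.natAbs : ℝ) / (g i3 : ℝ)) = 0 := by
    intro i1 hi1 i2 hi2 i3 hi3 h12
    obtain ⟨u1, v1, w1, x1⟩ := node i1 hi1
    obtain ⟨u2, v2, w2, x2⟩ := node i2 hi2
    obtain ⟨u3, v3, w3, x3⟩ := node i3 hi3
    have md : ∀ a : ℕ, a ≤ H ^ 4 → |(n.natAbs : ℝ) - (a : ℝ)| ≤ (H : ℝ) ^ 4 := by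
      intro a ha
      have e1 : (a : ℝ) ≤ (H : ℝ) ^ 4 := by exact_mod_cast ha
      have e2 : ((n.natAbs : ℕ) : ℝ) ≤ ((H ^ 4 : ℕ) : ℝ) := Nat.cast_le.2 (hn2.trans hH24)
      rw [Nat.cast_pow] at e2
      have e3 : (0 : ℝ) ≤ (a : ℝ) := Nat.cast_nonneg _
      have e4 : (0 : ℝ) ≤ (n.natAbs : ℝ) := Nat.cast_nonneg _
      rw [abs_le]
      constructor <;> linarith
    obtain ⟨B1, hB1⟩ : ∃ B : ℤ, B = dt (zz i2) (zz i3) := ⟨_, rfl⟩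
    obtain ⟨B2, hB2⟩ : ∃ B : ℤ, B = dt (zz i3) (zz i1) := ⟨_, rfl⟩
    obtain ⟨B3, hB3⟩ : ∃ B : ℤ, B = dt (zz i1) (zz i2) := ⟨_, rfl⟩
    have k1 : |(B1 : ℝ)| ≤ (H : ℝ) ^ 2 := by rw [hB1]; exact dt_small (hsi _ hi2) (hsi _ hi3)
    have k2 : |(B2 : ℝ)| ≤ (H : ℝ) ^ 2 := by rw [hB2]; exact dt_small (hsi _ hi3) (hsi _ hi1)
    have k3 : |(B3 : ℝ)| ≤ (H : ℝ) ^ 2 := by rw [hB3]; exact dt_small (hsi _ hi1) (hsi _ hi2)
    have hB30 : B3 ≠ 0 := by rw [hB3]; exact dt_ne h12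
    have kE := pluck (desc root k) (zz i1) (zz i2) (zz i3)
    rw [← hB1, ← hB2, ← hB3] at kE
    obtain ⟨m1, hm1⟩ : ∃ m : ℤ, m = (n.natAbs : ℤ) - (g i1 : ℤ) := ⟨_, rfl⟩
    obtain ⟨m2, hm2⟩ : ∃ m : ℤ, m = (n.natAbs : ℤ) - (g i2 : ℤ) := ⟨_, rfl⟩
    obtain ⟨m3, hm3⟩ : ∃ m : ℤ, m = (n.natAbs : ℤ) - (g i3 : ℤ) := ⟨_, rfl⟩
    have hm1r : (m1 : ℝ) = (n.natAbs : ℝ) - (g i1 : ℝ) := by
      rw [hm1, Int.cast_sub, Int.cast_natCast, Int.cast_natCast]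
    have hm2r : (m2 : ℝ) = (n.natAbs : ℝ) - (g i2 : ℝ) := by
      rw [hm2, Int.cast_sub, Int.cast_natCast, Int.cast_natCast]
    have hm3r : (m3 : ℝ) = (n.natAbs : ℝ) - (g i3 : ℝ) := by
      rw [hm3, Int.cast_sub, Int.cast_natCast, Int.cast_natCast]
    have l1 := md _ v1
    have l2 := md _ v2
    have l3 := md _ v3
    have st2 := step2 hΛ0 hH1 k1 k2 k3 kE (F_small hΛ0 S.ha (hT i1 hi1).1 (hsi _ hi1))
      (F_small hΛ0 S.ha (hT i2 hi2).1 (hsi _ hi2)) (F_small hΛ0 S.ha (hT i3 hi3).1 (hsi _ hi3))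
    have st3 := step3 hΛ0 hH1 k1 k2 k3 l1 l2 l3 x1 x2 x3 st2
    obtain ⟨q, hq⟩ : ∃ q : Q3, q = ⟨n'.natAbs, n'.natAbs, n'.natAbs, g i1, g i2, g i3,
      B1 * g i1 * m2 * m3, B2 * g i2 * m1 * m3, B3 * g i3 * m1 * m2⟩ := ⟨_, rfl⟩
    have hbd : ∀ (B x y : ℤ) (a : ℕ), |(B : ℝ)| ≤ (H : ℝ) ^ 2 → a ≤ H ^ 4 → |(x : ℝ)| ≤ (H : ℝ) ^ 4 →
        |(y : ℝ)| ≤ (H : ℝ) ^ 4 → |B * a * x * y| ≤ ((H ^ 14 : ℕ) : ℤ) := by
      intro B x y a t1 t2 t3 t4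
      have t2' : |(a : ℝ)| ≤ (H : ℝ) ^ 4 := by
        rw [abs_of_nonneg (Nat.cast_nonneg _)]
        exact_mod_cast t2
      have e1 : |(B : ℝ) * a * x * y| ≤ (H : ℝ) ^ 14 := by
        rw [abs_mul, abs_mul, abs_mul]
        have f1 : |(B : ℝ)| * |(a : ℝ)| ≤ (H : ℝ) ^ 2 * (H : ℝ) ^ 4 :=
          mul_le_mul t1 t2' (abs_nonneg _) (by positivity)
        have f2 : |(B : ℝ)| * |(a : ℝ)| * |(x : ℝ)| ≤ (H : ℝ) ^ 2 * (H : ℝ) ^ 4 * (H : ℝ) ^ 4 :=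
          mul_le_mul f1 t3 (abs_nonneg _) (by positivity)
        have f3 : |(B : ℝ)| * |(a : ℝ)| * |(x : ℝ)| * |(y : ℝ)| ≤
            (H : ℝ) ^ 2 * (H : ℝ) ^ 4 * (H : ℝ) ^ 4 * (H : ℝ) ^ 4 :=
          mul_le_mul f2 t4 (abs_nonneg _) (by positivity)
        refine f3.trans (le_of_eq ?_)
        ring
      exact_mod_cast e1
    have hm1' : |(m1 : ℝ)| ≤ (H : ℝ) ^ 4 := by rw [hm1r]; exact l1
    have hm2' : |(m2 : ℝ)| ≤ (H : ℝ) ^ 4 := by rw [hm2r]; exact l2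
    have hm3' : |(m3 : ℝ)| ≤ (H : ℝ) ^ 4 := by rw [hm3r]; exact l3
    have hm10 : m1 ≠ 0 := by rw [hm1]; intro h0; apply w1; omega
    have hm20 : m2 ≠ 0 := by rw [hm2]; intro h0; apply w2; omega
    have h414 : H ^ 4 ≤ H ^ 14 := Nat.pow_le_pow_right (by omega) (by norm_num)
    have hn'14 : n'.natAbs ≤ H ^ 14 := hn'2.trans (hH24.trans h414)
    have hOk : q.Ok (H ^ 14) := by
      rw [hq]
      refine ⟨⟨hn'1, hn'14⟩, ⟨hn'1, hn'14⟩, ⟨hn'1, hn'14⟩, ⟨u1, v1.trans h414⟩, ⟨u2, v2.trans h414⟩,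
        ⟨u3, v3.trans h414⟩, hbd _ _ _ _ k1 v1 hm2' hm3', hbd _ _ _ _ k2 v2 hm1' hm3',
        hbd _ _ _ _ k3 v3 hm1' hm2', ?_⟩
      have hg3 : (g i3 : ℤ) ≠ 0 := by omega
      exact mul_ne_zero (mul_ne_zero (mul_ne_zero hB30 hg3) hm10) hm20
    have hLam : q.Lam = B1 * (g i1 : ℝ) * ((n.natAbs : ℝ) - (g i2 : ℝ)) * ((n.natAbs : ℝ) - (g i3 : ℝ)) *
          Real.log ((n'.natAbs : ℝ) / (g i1 : ℝ)) +
        B2 * (g i2 : ℝ) * ((n.natAbs : ℝ) - (g i1 : ℝ)) * ((n.natAbs : ℝ) - (g i3 : ℝ)) *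
          Real.log ((n'.natAbs : ℝ) / (g i2 : ℝ)) +
        B3 * (g i3 : ℝ) * ((n.natAbs : ℝ) - (g i1 : ℝ)) * ((n.natAbs : ℝ) - (g i2 : ℝ)) *
          Real.log ((n'.natAbs : ℝ) / (g i3 : ℝ)) := by
      rw [← hm1r, ← hm2r, ← hm3r, hq]
      unfold Q3.Lam Q3.l1 Q3.l2 Q3.l3
      simp only [Int.cast_mul, Int.cast_natCast]
    have hz : q.Lam = 0 := by
      by_contra hnz
      have t1 := hB q (H ^ 14) (by
        have : 2 ^ 14 ≤ H ^ 14 := Nat.pow_le_pow_left hH 14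
        omega) hOk hnz
      rw [hLam] at t1
      have t2 := size_Λ hC1 hHr hΛ
      rw [Nat.cast_pow] at t1
      exact absurd (t1.trans st3) (not_le.2 t2)
    refine ⟨q.b1, q.b2, q.b3, hOk.ne, ?_⟩
    have e : q.Lam = q.b1 * Real.log ((n'.natAbs : ℝ) / (g i1 : ℝ)) +
        q.b2 * Real.log ((n'.natAbs : ℝ) / (g i2 : ℝ)) + q.b3 * Real.log ((n'.natAbs : ℝ) / (g i3 : ℝ)) := by
      rw [hq]
      rfl
    rw [← e]
    exact hz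
  -- the rational numbers
  obtain ⟨RR, hRR⟩ : ∃ RR : Finset ℚ, RR = (T.image g).image (fun d : ℕ => (n'.natAbs : ℚ) / (d : ℚ)) :=
    ⟨_, rfl⟩
  have hn'q : ((n'.natAbs : ℕ) : ℚ) ≠ 0 := by
    have : n'.natAbs ≠ 0 := by omega
    exact Nat.cast_ne_zero.2 this
  have hRcard : RR.card = (T.image g).card := by
    rw [hRR]
    apply Finset.card_image_of_injOn
    intro d hd d' hd' heq
    obtain ⟨i, hi, rfl⟩ := Finset.mem_image.1 (Finset.mem_coe.1 hd)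
    obtain ⟨i', hi', rfl⟩ := Finset.mem_image.1 (Finset.mem_coe.1 hd')
    have heq' : ((n'.natAbs : ℕ) : ℚ) / ((g i : ℕ) : ℚ) = ((n'.natAbs : ℕ) : ℚ) / ((g i' : ℕ) : ℚ) := heq
    have d0 : ((g i : ℕ) : ℚ) ≠ 0 := by
      have := (node i hi).1
      have : g i ≠ 0 := by omega
      exact_mod_cast this
    have d0' : ((g i' : ℕ) : ℚ) ≠ 0 := by
      have := (node i' hi').1
      have : g i' ≠ 0 := by omega
      exact_mod_cast this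
    rw [div_eq_div_iff d0 d0'] at heq'
    have := mul_left_cancel₀ hn'q heq'
    exact_mod_cast this.symm
  have hR := h2 (H ^ 4) RR (by
      have : 2 ^ 4 ≤ H ^ 4 := Nat.pow_le_pow_left hH 4
      omega) (by
    intro r hr
    rw [hRR] at hr
    obtain ⟨d, hd, rfl⟩ := Finset.mem_image.1 hr
    obtain ⟨i, hi, rfl⟩ := Finset.mem_image.1 hd
    obtain ⟨u1, v1, -, -⟩ := node i hi
    have d0 : (0 : ℚ) < ((g i : ℕ) : ℚ) := by exact_mod_cast u1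
    have n0 : (0 : ℚ) < ((n'.natAbs : ℕ) : ℚ) := Nat.cast_pos.2 hn'1
    have e : ((n'.natAbs : ℕ) : ℚ) / ((g i : ℕ) : ℚ) = Rat.divInt (n'.natAbs : ℤ) (g i : ℤ) := by
      rw [Rat.divInt_eq_div, Int.cast_natCast, Int.cast_natCast]
    refine ⟨div_pos n0 d0, ?_, ?_⟩
    · rw [e]
      have h3 := Rat.num_dvd (n'.natAbs : ℤ) (b := (g i : ℤ)) (by omega)
      have h4 := Int.le_of_dvd (by omega) h3
      exact h4.trans (Nat.cast_le.2 (hn'2.trans hH24))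
    · rw [e]
      have h3 := Rat.den_dvd (n'.natAbs : ℤ) (g i : ℤ)
      have h4 := Int.le_of_dvd (by omega) h3
      have h5 : (Rat.divInt (n'.natAbs : ℤ) (g i : ℤ)).den ≤ g i := by exact_mod_cast h4
      exact h5.trans v1) (by
    intro x hx y hy z hz hxy hzx hzy
    rw [hRR] at hx hy hz
    obtain ⟨d1, hd1, rfl⟩ := Finset.mem_image.1 hx
    obtain ⟨i1, hi1, rfl⟩ := Finset.mem_image.1 hd1
    obtain ⟨d2, hd2, rfl⟩ := Finset.mem_image.1 hy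
    obtain ⟨i2, hi2, rfl⟩ := Finset.mem_image.1 hd2
    obtain ⟨d3, hd3, rfl⟩ := Finset.mem_image.1 hz
    obtain ⟨i3, hi3, rfl⟩ := Finset.mem_image.1 hd3
    have h12 : i1 ≠ i2 := by
      rintro rfl
      exact hxy rfl
    obtain ⟨a, b, c, hc, habc⟩ := rel i1 hi1 i2 hi2 i3 hi3 h12
    refine ⟨a, b, c, hc, ?_⟩
    simp only [Rat.cast_div, Rat.cast_natCast]
    exact habc)
  rw [hRcard] at hR
  refine count_le (a := (T.image g).card) hH hR ?_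
  have : (T.card : ℝ) ≤ ((T.image g).card * 9 : ℕ) := by exact_mod_cast hcard
  push_cast at this
  linarith

end Pool.Agent.N395.MX3
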