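import Pool.Agent.N585.PT.Defs

/-!
# Path-like trees: the algorithm runs in polynomial time
-/

set_option autoImplicit false

namespace Pool.Agent.NPC.N395PT

open Pool.Agent.N585.PT Pool.Agent.NPC.N585FP Pool.Agent.H622R2

variable {α : Type} [TEnc α]

@[fun_prop] theorem poly_rl {β : Type} [TEnc β] {l : α → List β} (hl : Poly l) :
    Poly (fun a => List.range (l a).length) := (UPoly.length hl).range

@[fun_prop] theorem poly_rl1 {β : Type} [TEnc β] {l : α → List β} (hl : Poly l) :
    Poly (fun a => List.range ((l a).length + 1)) :=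
  (UPoly.add (UPoly.length hl) (UPoly.const 1)).range

@[fun_prop] theorem poly_rstep {M : α → List (List Bool)} {w : α → ℕ} {S : α → List ℕ}
    (hM : Poly M) (hw : Poly w) (hS : Poly S) : Poly (fun a => rstep (M a) (w a) (S a)) := by
  unfold rstep
  fun_prop

@[fun_prop] theorem poly_rL {M : α → List (List Bool)} {w x : α → ℕ}
    (hM : Poly M) (hw : Poly w) (hx : Poly x) : Poly (fun a => rL (M a) (w a) (x a)) := by
  unfold rL
  have h1 : Poly (fun a => List.range (M a).length) := by fun_prop
  have h2 : Poly (fun a => [x a]) := by fun_prop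
  obtain ⟨q1, hq1⟩ := h1.sz_le
  obtain ⟨q2, hq2⟩ := h2.sz_le
  refine Poly.foldl (l := fun a => List.range (M a).length) (s := fun a => [x a])
    (F := fun a S _ => rstep (M a) (w a) S) h1 h2 (by fun_prop) (q1 + q2) ?_
  intro a k _
  have h3 : ∀ (l : List ℕ) (S : List ℕ), sz (l.foldl (fun S _ => rstep (M a) (w a) S) S) ≤
      max (sz S) (sz (List.range (M a).length)) := by
    intro l
    induction l with
    | nil => intro S; simp
    | cons b l ih =>
      intro S
      rw [List.foldl_cons]
      refine (ih _).trans (max_le ?_ (le_max_right _ _))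
      exact (sz_filter_le _ _).trans (le_max_right _ _)
  refine (h3 _ _).trans ?_
  have h4 := hq1 a
  have h5 := hq2 a
  rw [Polynomial.eval_add]
  exact max_le (h5.trans (Nat.le_add_left _ _)) (h4.trans (Nat.le_add_right _ _))

@[fun_prop] theorem poly_raB {M : α → List (List Bool)} {w x y : α → ℕ}
    (hM : Poly M) (hw : Poly w) (hx : Poly x) (hy : Poly y) :
    Poly (fun a => raB (M a) (w a) (x a) (y a)) := by
  unfold raB
  fun_prop

@[fun_prop] theorem poly_onB {M : α → List (List Bool)} {w x y : α → ℕ}
    (hM : Poly M) (hx : Poly x) (hy : Poly y) (hw : Poly w) :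
    Poly (fun a => onB (M a) (x a) (y a) (w a)) := by
  unfold onB
  fun_prop

@[fun_prop] theorem poly_ddB {M : α → List (List Bool)} {x y : α → ℕ}
    (hM : Poly M) (hx : Poly x) (hy : Poly y) :
    Poly (fun a => ddB (M a) (x a) (y a)) := by
  unfold ddB
  fun_prop

@[fun_prop] theorem poly_brB {M : α → List (List Bool)} {x y : α → ℕ}
    (hM : Poly M) (hx : Poly x) (hy : Poly y) :
    Poly (fun a => brB (M a) (x a) (y a)) := by
  unfold brB
  fun_prop

@[fun_prop] theorem poly_treeB {M : α → List (List Bool)} (hM : Poly M) :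
    Poly (fun a => treeB (M a)) := by
  unfold treeB
  fun_prop

@[fun_prop] theorem poly_trip {M : α → List (List Bool)} (hM : Poly M) :
    Poly (fun a => trip (M a)) := by
  unfold trip
  fun_prop

@[fun_prop] theorem poly_nextB {M : α → List (List Bool)} {T : α → List (ℕ × ℕ × ℕ)}
    {m u x y : α → ℕ} (hM : Poly M) (hT : Poly T) (hm : Poly m) (hu : Poly u) (hx : Poly x)
    (hy : Poly y) : Poly (fun a => nextB (M a) (T a) (m a) (u a) (x a) (y a)) := by
  unfold nextB
  fun_prop

@[fun_prop] theorem poly_cstep {M : α → List (List Bool)} {T : α → List (ℕ × ℕ × ℕ)}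
    (hM : Poly M) (hT : Poly T) : Poly (fun a => cstep (M a) (T a)) := by
  unfold cstep
  fun_prop

@[fun_prop] theorem poly_tab {M : α → List (List Bool)} (hM : Poly M) :
    Poly (fun a => tab (M a)) := by
  unfold tab
  have h1 : Poly (fun a => List.range (M a).length) := by fun_prop
  have h2 : Poly (fun a => trip (M a)) := by fun_prop
  obtain ⟨q, hq⟩ := h2.sz_le
  refine Poly.foldl (l := fun a => List.range (M a).length)
    (s := fun _ => ([] : List (ℕ × ℕ × ℕ))) (F := fun a T _ => cstep (M a) T) h1 (Poly.const _)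
    (by fun_prop) (q + Polynomial.C 1) ?_
  intro a k _
  have h3 : ∀ (l : List ℕ) (S : List (ℕ × ℕ × ℕ)), sz (l.foldl (fun T _ => cstep (M a) T) S) ≤
      max (sz S) (sz (trip (M a))) := by
    intro l
    induction l with
    | nil => intro S; simp
    | cons b l ih =>
      intro S
      rw [List.foldl_cons]
      refine (ih _).trans (max_le ?_ (le_max_right _ _))
      exact (sz_filter_le _ _).trans (le_max_right _ _)
  refine (h3 _ _).trans ?_
  have h4 := hq a
  rw [Polynomial.eval_add, Polynomial.eval_C]
  refine max_le ?_ (h4.trans (Nat.le_add_right _ _))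
  rw [sz_list_nil]
  exact Nat.le_add_left _ _

theorem stmPoly : StmPoly := by
  unfold StmPoly algB
  fun_prop

end Pool.Agent.NPC.N395PT
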