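import Pool.Agent.N804.PV.DefW

set_option autoImplicit false

/-! # PX1: fixed lengths and relative lengths -/

namespace Pool.Agent.N395.PX1

open Filter Topology Set MeasureTheory
open Pool.Agent.N804.PV

/-- the integrand without singularity -/
noncomputable def q (T t α : ℝ) : ℝ :=
  T / (Real.log T * T ^ α) * fE (t * T ^ (α - 1)) (T ^ (α - 1)) ^ 2

lemma FI_eq {T : ℝ} (hT : 2 ≤ T) {t : ℝ} (ht : 0 < t) (α : ℝ) : FI T t α = q T t α := by
  have hT0 : 0 < T := by linarith
  have hL : 0 < Real.log T := Real.log_pos (by linarith)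
  have e1 : Real.exp (Real.log t + (α - 1) * Real.log T) = t * T ^ (α - 1) := by
    rw [Real.exp_add, Real.exp_log ht, Real.rpow_def_of_pos hT0, mul_comm (Real.log T)]
  have hp : 0 < T ^ (α - 1) := Real.rpow_pos_of_pos hT0 _
  have e2 : T ^ α = T * T ^ (α - 1) := by
    rw [Real.rpow_sub_one hT0.ne']
    field_simp
  have e4 : Real.exp (-((Real.log t + (α - 1) * Real.log T) / 2)) ^ 2 =
      (t * T ^ (α - 1))⁻¹ := by
    rw [← e1, ← Real.exp_neg, ← Real.exp_nat_mul]
    congr 1
    push_cast
    ring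
  unfold FI q DT fE
  rw [mul_pow, e4, e1, e2]
  have e5 : t * T ^ (α - 1) * (1 + 1 / t) = t * T ^ (α - 1) + T ^ (α - 1) := by
    field_simp
  have e6 : t * T ^ (α - 1) / t = T ^ (α - 1) := by
    field_simp
  rw [e5, e6]
  field_simp

lemma q_nonneg {T : ℝ} (hT : 2 ≤ T) (t α : ℝ) : 0 ≤ q T t α := by
  have hT0 : 0 < T := by linarith
  have hL : 0 < Real.log T := Real.log_pos (by linarith)
  have hp : 0 < T ^ α := Real.rpow_pos_of_pos hT0 _
  unfold q
  positivity

lemma rp_meas {T : ℝ} (hT : 2 ≤ T) : Measurable fun α : ℝ => T ^ α := by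
  have hT0 : T ≠ 0 := by linarith
  exact (Real.continuous_const_rpow hT0).measurable

lemma t1 {T : ℝ} (hT : 2 ≤ T) : Measurable fun p : ℝ × ℝ => T ^ p.2 :=
  (rp_meas hT).comp measurable_snd

lemma t2 {T : ℝ} (hT : 2 ≤ T) : Measurable fun p : ℝ × ℝ => T ^ (p.2 - 1) :=
  (rp_meas hT).comp (measurable_snd.sub_const _)

lemma t3 {T : ℝ} (hT : 2 ≤ T) :
    Measurable fun p : ℝ × ℝ => fE (p.1 * T ^ (p.2 - 1)) (T ^ (p.2 - 1)) := by
  have hm : Measurable Chebyshev.psi := Chebyshev.psi_mono.measurable
  have h2 := t2 hT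
  have h1 : Measurable fun p : ℝ × ℝ => p.1 * T ^ (p.2 - 1) := measurable_fst.mul h2
  have a1 : Measurable fun p : ℝ × ℝ => Chebyshev.psi (p.1 * T ^ (p.2 - 1)) := hm.comp h1
  have a2 : Measurable fun p : ℝ × ℝ => Chebyshev.psi (p.1 * T ^ (p.2 - 1) + T ^ (p.2 - 1)) :=
    hm.comp (h1.add h2)
  unfold fE
  exact (a2.sub a1).sub h2

lemma t4 {T : ℝ} (hT : 2 ≤ T) : Measurable fun p : ℝ × ℝ => T / (Real.log T * T ^ p.2) :=
  (measurable_const.mul (t1 hT)).const_div T

lemma q_meas {T : ℝ} (hT : 2 ≤ T) : Measurable fun p : ℝ × ℝ => q T p.1 p.2 :=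
  (t4 hT).mul ((t3 hT).pow_const 2)

lemma q_bd {T : ℝ} (hT : 2 ≤ T) (a b : ℝ) : ∃ K : ℝ, 0 ≤ K ∧ ∀ t α : ℝ, 0 < t → t ≤ T →
    a ≤ α → α ≤ b → q T t α ≤ K := by
  have hT0 : 0 < T := by linarith
  have hL : 0 < Real.log T := Real.log_pos (by linarith)
  have hpa : 0 < T ^ a := Real.rpow_pos_of_pos hT0 _
  refine ⟨T / (Real.log T * T ^ a) * (Chebyshev.psi (2 * T ^ b) + Chebyshev.psi (T ^ b) +
    T ^ b) ^ 2, by positivity, fun t α ht htT ha hb => ?_⟩
  have hp : 0 < T ^ (α - 1) := Real.rpow_pos_of_pos hT0 _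
  have e2 : T ^ α = T * T ^ (α - 1) := by
    rw [Real.rpow_sub_one hT0.ne']
    field_simp
  have h1 : T ^ a ≤ T ^ α := Real.rpow_le_rpow_of_exponent_le (by linarith) ha
  have h2 : T ^ α ≤ T ^ b := Real.rpow_le_rpow_of_exponent_le (by linarith) hb
  have h3 : t * T ^ (α - 1) ≤ T ^ b := by
    refine le_trans ?_ h2
    rw [e2]
    gcongr
  have h4 : T ^ (α - 1) ≤ T ^ b := by
    refine le_trans ?_ h2
    rw [e2]
    nlinarith
  have h5 : 0 < t * T ^ (α - 1) := by positivity
  have p1 : Chebyshev.psi (t * T ^ (α - 1) + T ^ (α - 1)) ≤ Chebyshev.psi (2 * T ^ b) :=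
    Chebyshev.psi_mono (by linarith)
  have p2 : Chebyshev.psi (t * T ^ (α - 1)) ≤ Chebyshev.psi (T ^ b) := Chebyshev.psi_mono h3
  have q1 := Chebyshev.psi_nonneg (t * T ^ (α - 1) + T ^ (α - 1))
  have q2 := Chebyshev.psi_nonneg (t * T ^ (α - 1))
  have h6 : |fE (t * T ^ (α - 1)) (T ^ (α - 1))| ≤ Chebyshev.psi (2 * T ^ b) +
      Chebyshev.psi (T ^ b) + T ^ b := by
    unfold fE
    rw [abs_le]
    constructor <;> linarith
  unfold q
  rw [← sq_abs (fE _ _)]
  gcongr

/-- the double integral converges -/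
lemma main_int {T : ℝ} (hT : 2 ≤ T) {S : ℝ} (hST : S ≤ T) {g : ℝ → ℝ} (hg : Measurable g)
    {M a b : ℝ} (hM : ∀ α, |g α| ≤ M) (hz : ∀ α, α < a ∨ b < α → g α = 0) :
    Integrable (fun p : ℝ × ℝ => (Ioc 0 S).indicator (fun t => g p.2 * q T t p.2) p.1)
      (volume.prod volume) := by
  obtain ⟨K, hK0, hK⟩ := q_bd hT a b
  have hM0 : 0 ≤ M := (abs_nonneg _).trans (hM 0)
  have i1 : Integrable ((Ioc (0 : ℝ) S).indicator fun _ => (1 : ℝ)) := by
    rw [integrable_indicator_iff measurableSet_Ioc]
    exact integrableOn_const (by simp) (by simp)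
  have i2 : Integrable ((Icc a b).indicator fun _ => M * K) := by
    rw [integrable_indicator_iff measurableSet_Icc]
    exact integrableOn_const (by simp) enorm_ne_top
  refine (i1.mul_prod i2).mono' ?_ (ae_of_all _ fun p => ?_)
  · have e : (fun p : ℝ × ℝ => (Ioc 0 S).indicator (fun t => g p.2 * q T t p.2) p.1) =
        (Prod.fst ⁻¹' Ioc (0 : ℝ) S).indicator fun p : ℝ × ℝ => g p.2 * q T p.1 p.2 := by
      funext p
      by_cases h : p.1 ∈ Ioc (0 : ℝ) S
      · rw [indicator_of_mem h, indicator_of_mem (show p ∈ Prod.fst ⁻¹' Ioc (0 : ℝ) S from h)]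
      · rw [indicator_of_notMem h,
          indicator_of_notMem (show p ∉ Prod.fst ⁻¹' Ioc (0 : ℝ) S from h)]
    rw [e]
    exact (((hg.comp measurable_snd).mul (q_meas hT)).indicator
      (measurable_fst measurableSet_Ioc)).aestronglyMeasurable
  · by_cases h : p.1 ∈ Ioc (0 : ℝ) S
    · rw [indicator_of_mem h, indicator_of_mem h, one_mul]
      by_cases h2 : p.2 ∈ Icc a b
      · rw [indicator_of_mem h2, Real.norm_eq_abs, abs_mul, abs_of_nonneg (q_nonneg hT _ _)]
        have h3 := hK p.1 p.2 h.1 (h.2.trans hST) h2.1 h2.2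
        have h4 := hM p.2
        have h5 := q_nonneg hT p.1 p.2
        gcongr
      · rw [indicator_of_notMem h2, hz p.2, zero_mul, norm_zero]
        by_contra hcon
        push Not at hcon
        exact h2 ⟨hcon.1, hcon.2⟩
    · rw [indicator_of_notMem h, indicator_of_notMem h, norm_zero, zero_mul]

/-- the substitution `x = t X / T` -/
lemma PSI_eq {θ T : ℝ} (hT : 2 ≤ T) (hθ1 : θ ≤ 1) (α : ℝ) :
    PSI θ T α = 1 / T * ∫ t : ℝ, (Ioc 0 (T - θ)).indicator (fun t => q T t α) t := by
  have hT0 : 0 < T := by linarith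
  have hL : 0 < Real.log T := Real.log_pos (by linarith)
  have hp : 0 < T ^ (α - 1) := Real.rpow_pos_of_pos hT0 _
  have e2 : T ^ α = T * T ^ (α - 1) := by
    rw [Real.rpow_sub_one hT0.ne']
    field_simp
  have e3 : T ^ α / T = T ^ (α - 1) := by
    rw [e2]
    field_simp
  rw [integral_indicator measurableSet_Ioc, ← intervalIntegral.integral_of_le (by linarith)]
  unfold PSI JV q
  rw [intervalIntegral.integral_const_mul, e3]
  have h := intervalIntegral.integral_comp_mul_right (a := 0) (b := T - θ)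
    (fun x => fE x (T ^ (α - 1)) ^ 2) hp.ne'
  rw [h, zero_mul, smul_eq_mul]
  have e4 : (T - θ) * T ^ (α - 1) = T ^ α - θ * T ^ (α - 1) := by
    rw [e2]
    ring
  rw [e4, e2]
  field_simp

theorem main : S_W1 := by
  intro θ hθ0 hθ1 T hT
  have hT0 : 0 < T := by linarith
  have hL : 0 < Real.log T := Real.log_pos (by linarith)
  refine ⟨fun a b => ?_, fun u v hu huv => ?_, fun g hg hgM => ?_⟩
  · set c := min a b
    set d := max a b
    have hgz : ∀ α, α < c ∨ d < α → (Icc c d).indicator (fun _ => (1 : ℝ)) α = 0 := by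
      intro α hα
      apply indicator_of_notMem
      rintro ⟨h1, h2⟩
      rcases hα with h | h
      · linarith
      · linarith
    have hgM : ∀ α, |(Icc c d).indicator (fun _ => (1 : ℝ)) α| ≤ 1 := by
      intro α
      rw [indicator_apply]
      split_ifs <;> simp
    have F := main_int hT (S := T - θ) (by linarith)
      (g := (Icc c d).indicator fun _ => (1 : ℝ)) (measurable_const.indicator measurableSet_Icc)
      hgM hgz
    have F2 := (F.integral_prod_right).const_mul (1 / T)
    have F3 : IntegrableOn (PSI θ T) (Icc c d) := by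
      rw [← integrable_indicator_iff measurableSet_Icc]
      refine F2.congr (ae_of_all _ fun α => ?_)
      show 1 / T * (∫ t : ℝ, (Ioc 0 (T - θ)).indicator (fun t =>
        (Icc c d).indicator (fun _ => (1 : ℝ)) α * q T t α) t) = (Icc c d).indicator (PSI θ T) α
      by_cases h : α ∈ Icc c d
      · rw [indicator_of_mem h, indicator_of_mem h, PSI_eq hT hθ1]
        simp only [one_mul]
      · rw [indicator_of_notMem h, indicator_of_notMem h]
        simp
    rw [intervalIntegrable_iff]
    refine F3.mono_set ?_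
    rw [uIoc]
    exact Ioc_subset_Icc_self
  · unfold WV
    have e1 : ∀ c : ℝ, T ^ c = Real.exp (c * Real.log T) := fun c => by
      rw [Real.rpow_def_of_pos hT0, mul_comm]
    rw [e1, e1, intervalIntegral.integral_of_le (Real.exp_le_exp.2 (by gcongr))]
    have himg : Real.exp '' Ioc (u * Real.log T) (v * Real.log T) =
        Ioc (Real.exp (u * Real.log T)) (Real.exp (v * Real.log T)) := by
      ext x
      constructor
      · rintro ⟨u, hu, rfl⟩
        exact ⟨Real.exp_lt_exp.2 hu.1, Real.exp_le_exp.2 hu.2⟩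
      · rintro ⟨h1, h2⟩
        have hx : 0 < x := (Real.exp_pos _).trans h1
        refine ⟨Real.log x, ⟨?_, ?_⟩, Real.exp_log hx⟩
        · rwa [Real.lt_log_iff_exp_lt hx]
        · rwa [Real.log_le_iff_le_exp hx]
    rw [← himg, integral_image_eq_integral_abs_deriv_smul measurableSet_Ioc
      (fun x _ => (Real.hasDerivAt_exp x).hasDerivWithinAt) Real.exp_injective.injOn,
      ← intervalIntegral.integral_of_le (by gcongr)]
    have h := intervalIntegral.integral_comp_mul_right (a := u) (b := v)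
      (fun y => |Real.exp y| • (JV θ T (Real.exp y) / Real.exp y ^ 3)) hL.ne'
    rw [smul_eq_mul, eq_inv_mul_iff_mul_eq₀ hL.ne'] at h
    rw [← h, ← mul_assoc, ← intervalIntegral.integral_const_mul]
    refine intervalIntegral.integral_congr fun α _ => ?_
    show T / Real.log T ^ 2 * Real.log T * (|Real.exp (α * Real.log T)| •
      (JV θ T (Real.exp (α * Real.log T)) / Real.exp (α * Real.log T) ^ 3)) = PSI θ T α
    unfold PSI
    rw [e1, abs_of_pos (Real.exp_pos _), smul_eq_mul]
    have := Real.exp_pos (α * Real.log T)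
    field_simp
  · obtain ⟨M, A, hgA⟩ := hgM
    have hM : ∀ α, |g α| ≤ M := fun α => (hgA α).1
    have hz : ∀ α, α < 1 ∨ A < α → g α = 0 := fun α => (hgA α).2
    have hM0 : 0 ≤ M := (abs_nonneg _).trans (hM 0)
    have F := main_int hT (S := T - θ) (by linarith) hg hM hz
    have hin : ∀ t : ℝ, ∫ α : ℝ, (Ioc 0 (T - θ)).indicator (fun t => g α * q T t α) t =
        (Ioc 0 (T - θ)).indicator (fun t => ∫ α : ℝ, g α * FI T t α) t := by
      intro t
      by_cases h : t ∈ Ioc 0 (T - θ)
      · simp only [indicator_of_mem h]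
        congr 1
        funext α
        rw [FI_eq hT h.1]
      · simp only [indicator_of_notMem h, integral_zero]
    refine ⟨fun t ht htT => ?_, ?_, ?_⟩
    · obtain ⟨K, hK0, hK⟩ := q_bd hT 1 A
      have i2 : Integrable ((Icc 1 A).indicator fun _ => M * K) := by
        rw [integrable_indicator_iff measurableSet_Icc]
        exact integrableOn_const (by simp) enorm_ne_top
      have e : (fun α => g α * FI T t α) = fun α => g α * q T t α := by
        funext α
        rw [FI_eq hT ht]
      rw [e]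
      refine i2.mono' ?_ (ae_of_all _ fun α => ?_)
      · exact (hg.mul ((q_meas hT).comp (measurable_const.prodMk measurable_id))).aestronglyMeasurable
      · by_cases h2 : α ∈ Icc 1 A
        · rw [indicator_of_mem h2, Real.norm_eq_abs, abs_mul, abs_of_nonneg (q_nonneg hT _ _)]
          have h3 := hK t α ht htT h2.1 h2.2
          have h4 := hM α
          have h5 := q_nonneg hT t α
          gcongr
        · rw [indicator_of_notMem h2, hz α, zero_mul, norm_zero]
          by_contra hcon
          push Not at hcon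
          exact h2 ⟨hcon.1, hcon.2⟩
    · rw [intervalIntegrable_iff, uIoc_of_le (by linarith), ← integrable_indicator_iff measurableSet_Ioc]
      have F2 := F.integral_prod_left
      exact F2.congr (ae_of_all _ hin)
    · have hsw := integral_integral_swap (f := fun t α => (Ioc 0 (T - θ)).indicator
        (fun t => g α * q T t α) t) (μ := volume) (ν := volume) F
      simp_rw [hin] at hsw
      rw [integral_indicator measurableSet_Ioc, ← intervalIntegral.integral_of_le (by linarith)] at hsw
      rw [hsw, ← integral_const_mul]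
      congr 1
      funext α
      rw [PSI_eq hT hθ1]
      have e : ∫ t : ℝ, (Ioc 0 (T - θ)).indicator (fun t => g α * q T t α) t =
          g α * ∫ t : ℝ, (Ioc 0 (T - θ)).indicator (fun t => q T t α) t := by
        rw [← integral_const_mul]
        congr 1
        funext t
        rw [indicator_apply, indicator_apply]
        split_ifs <;> simp
      rw [e]
      ring

end Pool.Agent.N395.PX1
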